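import Pool.Agent.Lib.MP_80aaf5_lc.Btw.Subst
import Pool.Agent.Lib.MP_80aaf5_lc.Few.Defs

/-!
# Closure of `P`, `NP` and `UP` under polynomial-time reductions of the oracles
-/

set_option autoImplicit false

namespace ESY.Btw

open ESY ESY.Few

/-- a machine which always stops and decides the oracle `C` relative to `D` -/
theorem decider {C D : Oracle} (h : InP D {s | C s = true}) : ∃ (N : Machine) (d : ℕ),
    ∀ s : List Bool, HaltsM D N s [] (C s) (poly d s.length) := by
  classical
  obtain ⟨N₀, c, h⟩ := h
  obtain ⟨N, d, hN⟩ := clocked N₀ c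
  refine ⟨N, d, fun s => ?_⟩
  have h1 := hN D s []
  have h2 : decide (([] : List Bool).length ≤ poly c s.length ∧
      AcceptsIn D N₀ s [] (poly c s.length)) = C s := by
    have h3 := h s
    rw [Set.mem_ofPred_eq] at h3
    cases hC : C s with
    | false =>
      refine decide_eq_false fun h4 => ?_
      rw [h3.2 h4.2] at hC
      exact absurd hC (by decide)
    | true => exact decide_eq_true ⟨Nat.zero_le _, h3.1 hC⟩
  have h4 : HaltsM D N s [] (decide (([] : List Bool).length ≤ poly c s.length ∧
      AcceptsIn D N₀ s [] (poly c s.length))) (poly d s.length) := by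
    convert h1
  rwa [h2] at h4

theorem core {C D : Oracle} (h : InP D {s | C s = true}) (M : Machine) (c : ℕ) :
    ∃ (M' : Machine) (c' : ℕ), (∀ n, poly c n ≤ poly c' n) ∧
      (∀ x w : List Bool, w.length ≤ poly c x.length →
        (AcceptsIn D M' x w (poly c' x.length) ↔ AcceptsIn C M x w (poly c x.length))) ∧
      ∀ (x w : List Bool) (T : ℕ), AcceptsIn D M' x w T → w.length ≤ poly c x.length ∧
        AcceptsIn C M x w (poly c x.length) := by
  classical
  obtain ⟨N, d, hN⟩ := decider h
  obtain ⟨M₁, c₁, h1⟩ := clocked M c
  obtain ⟨M₂, h2⟩ := subst M₁ N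
  obtain ⟨c', hc'⟩ : PB fun n => poly c n + poly c₁ n * ((N.k + 8) * ((n + poly c n + poly c₁ n) +
      poly d (n + poly c n + poly c₁ n) + 1)) :=
    pb_add (pb_poly c) (pb_mul (pb_poly c₁) (pb_mul (pb_const _) (pb_add (pb_add
      (pb_add (pb_add pb_id (pb_poly c)) (pb_poly c₁))
      (pb_comp (pb_add (pb_add pb_id (pb_poly c)) (pb_poly c₁)) d)) (pb_const 1))))
  have h3 : ∀ x w : List Bool, HaltsM D M₂ x w
      (decide (w.length ≤ poly c x.length ∧ AcceptsIn C M x w (poly c x.length)))
      (poly c₁ x.length * cost N d (max x.length w.length + poly c₁ x.length)) := fun x w =>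
    h2 C D d hN x w _ _ (by convert h1 C x w)
  refine ⟨M₂, c', fun n => ?_, fun x w hw => ?_, fun x w T hT => ?_⟩
  · have := hc' n
    simp only at this
    omega
  · rw [(h3 x w).iff (T := poly c' x.length) ?_, decide_eq_true_iff]
    · exact ⟨fun h => h.2, fun h => ⟨hw, h⟩⟩
    · have h4 := hc' x.length
      simp only at h4
      refine le_trans ?_ ((Nat.le_add_left _ _).trans h4)
      refine Nat.mul_le_mul_left _ ?_
      unfold cost
      have h5 : max x.length w.length + poly c₁ x.length ≤
          x.length + poly c x.length + poly c₁ x.length := by omega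
      have h6 := poly_mono' (c := d) h5
      exact Nat.mul_le_mul_left _ (by omega)
  · have h4 := (h3 x w).sound hT
    exact of_decide_eq_true h4

/-- **`P` is closed.** -/
theorem btw_p {C D : Oracle} (h : InP D {s | C s = true}) {L : Set (List Bool)}
    (hL : InP C L) : InP D L := by
  obtain ⟨M, c, hL⟩ := hL
  obtain ⟨M', c', -, h1, -⟩ := core h M c
  exact ⟨M', c', fun x => (hL x).trans (h1 x [] (Nat.zero_le _)).symm⟩

/-- **`NP` is closed.** -/
theorem btw_np {C D : Oracle} (h : InP D {s | C s = true}) {L : Set (List Bool)}
    (hL : InNP C L) : InNP D L := by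
  obtain ⟨M, c, hL⟩ := hL
  obtain ⟨M', c', h0, h1, h2⟩ := core h M c
  refine ⟨M', c', fun x => (hL x).trans ⟨?_, ?_⟩⟩
  · rintro ⟨w, hw, ha⟩
    exact ⟨w, hw.trans (h0 _), (h1 x w hw).2 ha⟩
  · rintro ⟨w, -, ha⟩
    exact ⟨w, h2 x w _ ha⟩

/-- **`UP` is closed.** -/
theorem btw_up {k : ℕ} {C D : Oracle} (h : InP D {s | C s = true}) {L : Set (List Bool)}
    (hL : InUPk k C L) : InUPk k D L := by
  obtain ⟨M, c, hL, hk⟩ := hL
  obtain ⟨M', c', h0, h1, h2⟩ := core h M c
  have e : ∀ x w : List Bool, (w.length ≤ poly c' x.length ∧
      AcceptsIn D M' x w (poly c' x.length)) ↔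
      (w.length ≤ poly c x.length ∧ AcceptsIn C M x w (poly c x.length)) := by
    intro x w
    exact ⟨fun h => h2 x w _ h.2, fun h => ⟨h.1.trans (h0 _), (h1 x w h.1).2 h.2⟩⟩
  refine ⟨M', c', fun x => ?_, fun x => ?_⟩
  · rw [hL x]
    exact exists_congr fun w => (e x w).symm
  · have h3 := hk x
    have h4 : {w : List Bool | w.length ≤ poly c' x.length ∧
        AcceptsIn D M' x w (poly c' x.length)} = {w : List Bool | w.length ≤ poly c x.length ∧
        AcceptsIn C M x w (poly c x.length)} := Set.ext fun w => e x w
    rw [h4]
    exact h3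

theorem btw_refl (O : Oracle) : InP O {s | O s = true} := by
  obtain ⟨M, hM⟩ := toMachine (K := Fin 2) (Q := Fin 3)
    ![.query 0 1 2, .halt false, .halt true] 0 1 (by decide) 0
  refine ⟨M, 1, fun x => ?_⟩
  have h1 : Halts O (K := Fin 2) (Q := Fin 3) ![.query 0 1 2, .halt false, .halt true]
      (0, ini 0 1 x []) (O x) 1 := by
    refine ⟨1, le_rfl, ?_⟩
    have e : ini (0 : Fin 2) 1 x [] 0 = x := rfl
    rw [Function.iterate_one]
    unfold gstep
    simp only [Matrix.cons_val_zero, e]
    cases O x <;> rfl
  have h2 := (hM O x [] _ _ h1).iff (T := poly 1 x.length) (by unfold poly; omega)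
  exact h2.symm

/-! ### joins -/

/-- the first component of a join -/
theorem join_left (B S : Oracle) : InP (join B S) {s | B s = true} := by
  obtain ⟨M, hM⟩ := toMachine (K := Fin 2) (Q := Fin 4)
    ![.push 0 false 3, .halt false, .halt true, .query 0 1 2] 0 1 (by decide) 0
  refine ⟨M, 2, fun x => ?_⟩
  have h1 : Halts (join B S) (K := Fin 2) (Q := Fin 4)
      ![.push 0 false 3, .halt false, .halt true, .query 0 1 2]
      (0, ini 0 1 x []) (B x) 2 := by
    refine ⟨2, le_rfl, ?_⟩
    have e : Function.update (ini (0 : Fin 2) 1 x []) 0 (false :: ini (0 : Fin 2) 1 x [] 0) 0 =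
      false :: x := Function.update_self ..
    have e2 : join B S (false :: x) = B x := rfl
    rw [Function.iterate_succ_apply, Function.iterate_one]
    unfold gstep
    simp only [Matrix.cons_val_zero, Matrix.cons_val, e, e2]
    cases B x <;> rfl
  have h2 := (hM (join B S) x [] _ _ h1).iff (T := poly 2 x.length) (by unfold poly; omega)
  exact h2.symm

/-- split on the first bit -/
def jcode (N : Machine) : Fin (N.q + 1) ⊕ Fin 5 → GI (Fin (N.k + 2)) (Fin (N.q + 1) ⊕ Fin 5)
  | .inl s => match N.code s with
    | .push i b n => .push i b (.inl n)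
    | .pop i e z o => .pop i (.inl e) (.inl z) (.inl o)
    | .query i n y => .query i (.inl n) (.inl y)
    | .halt b => .halt b
  | .inr 0 => .pop 0 (.inr 1) (.inl 0) (.inr 2)
  | .inr 1 => .halt false
  | .inr 2 => .push 0 true (.inr 3)
  | .inr 3 => .query 0 (.inr 1) (.inr 4)
  | .inr 4 => .halt true

theorem jsim (N : Machine) (O : Oracle) (t : ℕ) : ∀ C : Cfg N,
    (gstep O (jcode N))^[t] (.inl C.state, C.stack) =
      (.inl ((step O N)^[t] C).state, ((step O N)^[t] C).stack) := by
  induction t with
  | zero => intro C; rfl
  | succ t ih =>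
    intro C
    rw [Function.iterate_succ_apply, Function.iterate_succ_apply]
    have h : gstep O (jcode N) (.inl C.state, C.stack) =
        (.inl (step O N C).state, (step O N C).stack) := by
      cases hc : N.code C.state with
      | push i b n =>
        have h0 : jcode N (.inl C.state) = .push i b (.inl n) := by
          unfold jcode
          simp only [hc]
        rw [m_push hc]
        unfold gstep
        rw [h0]
      | pop i e z o =>
        have h0 : jcode N (.inl C.state) = .pop i (.inl e) (.inl z) (.inl o) := by
          unfold jcode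
          simp only [hc]
        rcases hS : C.stack i with _ | ⟨_ | _, r⟩
        · rw [m_empty hc hS]
          unfold gstep
          rw [h0]
          simp only [hS]
        · rw [m_false hc hS]
          unfold gstep
          rw [h0]
          simp only [hS]
        · rw [m_true hc hS]
          unfold gstep
          rw [h0]
          simp only [hS]
      | query i n y =>
        have h0 : jcode N (.inl C.state) = .query i (.inl n) (.inl y) := by
          unfold jcode
          simp only [hc]
        rw [m_query hc]
        unfold gstep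
        rw [h0]
        simp only
        by_cases hO : O (C.stack i) = true
        · rw [if_pos hO, if_pos hO]
        · rw [if_neg hO, if_neg hO]
      | halt b =>
        have h0 : jcode N (.inl C.state) = .halt b := by
          unfold jcode
          simp only [hc]
        rw [step_fix hc]
        unfold gstep
        rw [h0]
    rw [h, ih]

/-- the join with `S` preserves reductions -/
theorem join_mono {A B : Oracle} (S : Oracle) (h : InP B {s | A s = true}) :
    InP (join B S) {s | join A S s = true} := by
  obtain ⟨N, d, hN⟩ := decider (btw_p (join_left B S) h)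
  obtain ⟨M, hM⟩ := toMachine (jcode N) 0 1 (by simp) (.inr 0)
  obtain ⟨c, hc⟩ : PB fun n => 3 + poly d n := pb_add (pb_const 3) (pb_poly d)
  refine ⟨M, c, fun r => ?_⟩
  have key : HaltsM (join B S) M r [] (join A S r) (3 + poly d r.length) := by
    refine hM _ _ _ _ _ ?_
    have e0 : ∀ r : List Bool, ini (0 : Fin (N.k + 2)) 1 r [] 0 = r := by
      intro r
      unfold ini
      rw [if_pos rfl]
    match r with
    | [] =>
      have h1 : Run (join B S) (jcode N) 1 (.inr 0, ini 0 1 [] []) (.inr 1, ini 0 1 [] []) :=
        g_empty (e := Sum.inr 1) rfl (e0 [])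
      exact (h1.halts (Halts.now (b := false) rfl)).mono (by omega)
    | false :: r =>
      have h1 : Run (join B S) (jcode N) 1 (.inr 0, ini 0 1 (false :: r) [])
          (.inl 0, Function.update (ini 0 1 (false :: r) []) 0 r) :=
        g_false (q := Sum.inr 0) (z := Sum.inl 0) rfl (e0 _)
      have e1 : ((.inl 0, Function.update (ini 0 1 (false :: r) []) 0 r) :
          (Fin (N.q + 1) ⊕ Fin 5) × (Fin (N.k + 2) → List Bool)) =
          (.inl (start N r []).state, (start N r []).stack) := by
        unfold start ini
        congr 1
        funext j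
        by_cases hj : j = 0
        · subst hj
          rw [Function.update_self]
          simp only [if_true]
        · rw [Function.update_of_ne hj]
          simp only [if_neg hj]
      obtain ⟨t, ht, hh⟩ := hN r
      have h2 : Halts (join B S) (jcode N) (.inl (start N r []).state, (start N r []).stack)
          (A r) t := by
        refine ⟨t, le_rfl, ?_⟩
        rw [jsim]
        change jcode N (.inl ((step (join B S) N)^[t] (start N r [])).state) = _
        unfold jcode
        simp only [hh]
      rw [e1] at h1
      refine (h1.halts h2).mono ?_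
      have h3 : poly d r.length ≤ poly d (false :: r).length :=
        poly_mono' (by rw [List.length_cons]; omega)
      omega
    | true :: r =>
      have h1 : Run (join B S) (jcode N) 1 (.inr 0, ini 0 1 (true :: r) [])
          (.inr 2, Function.update (ini 0 1 (true :: r) []) 0 r) :=
        g_true (q := Sum.inr 0) (o := Sum.inr 2) rfl (e0 _)
      have h2 := g_push (O := join B S) (code := jcode N) (q := Sum.inr 2) (n := Sum.inr 3)
        (S := Function.update (ini 0 1 (true :: r) []) 0 r) (i := 0) (b := true) rfl
      rw [Function.update_self, Function.update_idem] at h2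
      have h3 := g_query (O := join B S) (code := jcode N) (q := Sum.inr 3) (n := Sum.inr 1)
        (y := Sum.inr 4) (S := Function.update (ini 0 1 (true :: r) []) 0 (true :: r)) (i := 0) rfl
      rw [Function.update_self] at h3
      have e2 : join B S (true :: r) = S r := rfl
      have e3 : join A S (true :: r) = S r := rfl
      rw [e2] at h3
      rw [e3]
      have h4 := h1.trans (h2.trans h3)
      cases hS : S r with
      | false =>
        rw [hS, if_neg (by decide)] at h4
        exact (h4.halts (Halts.now (b := false) rfl)).mono (by omega)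
      | true =>
        rw [hS, if_pos rfl] at h4
        exact (h4.halts (Halts.now (b := true) rfl)).mono (by omega)
  exact (key.iff (hc r.length)).symm

/-- **`P` with a second oracle.** -/
theorem btw_join {A B : Oracle} (S : Oracle) (h : InP B {s | A s = true}) {L : Set (List Bool)}
    (hL : InP (join A S) L) : InP (join B S) L :=
  btw_p (join_mono S h) hL

end ESY.Btw
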