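import Pool.Agent.Lib.MP_80aaf5_lc.Btw.GM
import Pool.Agent.Lib.MP_80aaf5_lc.Few.Machine

/-!
# Machines with a clock
-/

set_option autoImplicit false

namespace ESY.Btw

open ESY ESY.Few

/-! ### four more stacks -/

variable {κ Q : Type} [DecidableEq κ]

/-- configurations with four more stacks -/
def cg (q : Q) (S : κ → List Bool) (a b y z : List Bool) : Q × (κ ⊕ Fin 4 → List Bool) :=
  (q, Sum.elim S ![a, b, y, z])

theorem su0 (S : κ → List Bool) (a b y z e : List Bool) :
    Function.update (Sum.elim S ![a, b, y, z] : κ ⊕ Fin 4 → List Bool) (.inr 0) e =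
      Sum.elim S ![e, b, y, z] := by rw [Sum.update_elim_inr, upd0]
theorem su1 (S : κ → List Bool) (a b y z e : List Bool) :
    Function.update (Sum.elim S ![a, b, y, z] : κ ⊕ Fin 4 → List Bool) (.inr 1) e =
      Sum.elim S ![a, e, y, z] := by rw [Sum.update_elim_inr, upd1]
theorem su2 (S : κ → List Bool) (a b y z e : List Bool) :
    Function.update (Sum.elim S ![a, b, y, z] : κ ⊕ Fin 4 → List Bool) (.inr 2) e =
      Sum.elim S ![a, b, e, z] := by rw [Sum.update_elim_inr, upd2]
theorem su3 (S : κ → List Bool) (a b y z e : List Bool) :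
    Function.update (Sum.elim S ![a, b, y, z] : κ ⊕ Fin 4 → List Bool) (.inr 3) e =
      Sum.elim S ![a, b, y, e] := by rw [Sum.update_elim_inr, upd3]

section steps

variable {O : Oracle} {code : Q → GI (κ ⊕ Fin 4) Q} {q n e : Q} {f : Bool → Q} {β : Bool}
  (S : κ → List Bool) (a b y z : List Bool)

theorem psA (h : code q = .push (.inr 0) β n) : Run O code 1 (cg q S a b y z) (cg n S (β :: a) b y z) := by
  have h1 := g_push (O := O) (S := Sum.elim S ![a, b, y, z]) h
  rw [su0] at h1
  exact h1
theorem psB (h : code q = .push (.inr 1) β n) : Run O code 1 (cg q S a b y z) (cg n S a (β :: b) y z) := by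
  have h1 := g_push (O := O) (S := Sum.elim S ![a, b, y, z]) h
  rw [su1] at h1
  exact h1
theorem psY (h : code q = .push (.inr 2) β n) : Run O code 1 (cg q S a b y z) (cg n S a b (β :: y) z) := by
  have h1 := g_push (O := O) (S := Sum.elim S ![a, b, y, z]) h
  rw [su2] at h1
  exact h1
theorem psZ (h : code q = .push (.inr 3) β n) : Run O code 1 (cg q S a b y z) (cg n S a b y (β :: z)) := by
  have h1 := g_push (O := O) (S := Sum.elim S ![a, b, y, z]) h
  rw [su3] at h1
  exact h1

theorem poA (h : code q = .pop (.inr 0) e (f false) (f true)) :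
    Run O code 1 (cg q S (β :: a) b y z) (cg (f β) S a b y z) := by
  have h1 := g_pop (O := O) (S := Sum.elim S ![β :: a, b, y, z]) (s := a) (b := β) h rfl
  rw [su0] at h1
  exact h1
theorem poB (h : code q = .pop (.inr 1) e (f false) (f true)) :
    Run O code 1 (cg q S a (β :: b) y z) (cg (f β) S a b y z) := by
  have h1 := g_pop (O := O) (S := Sum.elim S ![a, β :: b, y, z]) (s := b) (b := β) h rfl
  rw [su1] at h1
  exact h1
theorem poY (h : code q = .pop (.inr 2) e (f false) (f true)) :
    Run O code 1 (cg q S a b (β :: y) z) (cg (f β) S a b y z) := by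
  have h1 := g_pop (O := O) (S := Sum.elim S ![a, b, β :: y, z]) (s := y) (b := β) h rfl
  rw [su2] at h1
  exact h1
theorem poZ (h : code q = .pop (.inr 3) e (f false) (f true)) :
    Run O code 1 (cg q S a b y (β :: z)) (cg (f β) S a b y z) := by
  have h1 := g_pop (O := O) (S := Sum.elim S ![a, b, y, β :: z]) (s := z) (b := β) h rfl
  rw [su3] at h1
  exact h1

theorem neA {z' o' : Q} (h : code q = .pop (.inr 0) e z' o') :
    Run O code 1 (cg q S [] b y z) (cg e S [] b y z) := g_empty h rfl
theorem neB {z' o' : Q} (h : code q = .pop (.inr 1) e z' o') :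
    Run O code 1 (cg q S a [] y z) (cg e S a [] y z) := g_empty h rfl
theorem neY {z' o' : Q} (h : code q = .pop (.inr 2) e z' o') :
    Run O code 1 (cg q S a b [] z) (cg e S a b [] z) := g_empty h rfl
theorem neZ {z' o' : Q} (h : code q = .pop (.inr 3) e z' o') :
    Run O code 1 (cg q S a b y []) (cg e S a b y []) := g_empty h rfl

variable {i : κ}

theorem psS (h : code q = .push (.inl i) β n) :
    Run O code 1 (cg q S a b y z) (cg n (Function.update S i (β :: S i)) a b y z) := by
  have h1 := g_push (O := O) (S := Sum.elim S ![a, b, y, z]) h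
  rw [Sum.update_elim_inl] at h1
  exact h1
theorem poS (h : code q = .pop (.inl i) e (f false) (f true)) {s : List Bool}
    (hs : S i = β :: s) :
    Run O code 1 (cg q S a b y z) (cg (f β) (Function.update S i s) a b y z) := by
  have h1 := g_pop (O := O) (S := Sum.elim S ![a, b, y, z]) (s := s) (b := β) h hs
  rw [Sum.update_elim_inl] at h1
  exact h1
theorem neS {z' o' : Q} (h : code q = .pop (.inl i) e z' o') (hs : S i = []) :
    Run O code 1 (cg q S a b y z) (cg e S a b y z) := g_empty h hs

end steps

/-! ### the states and the code -/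

/-- the states -/
inductive St (q c : ℕ) : Type
  | cp0 | cp1 (b : Bool) | cp2 | rs0 | rs1 (b : Bool) | one
  | m0 (i : Fin c) | m1 (i : Fin c) | m2 (i : Fin c) | m2' (i : Fin c) | m3 (i : Fin c)
  | m4 (i : Fin c) | m5 (i : Fin c) | m6 (i : Fin c)
  | ad (i : Fin c)
  | w0 | w1 (b : Bool) | w2 | w3 | v0 | v1 (b : Bool) | u0 | u1 | rej
  | r (s : Fin (q + 1)) | ex (s : Fin (q + 1))

instance (q c : ℕ) : Finite (St q c) := by
  have f : Function.Surjective (fun t : ((Fin 24 × Bool) ⊕ (Fin 9 × Fin c)) ⊕
      (Bool × Fin (q + 1)) => (match t with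
    | .inl (.inl (j, b)) => (![St.cp0, .cp1 b, .cp2, .rs0, .rs1 b, .one, .w0, .w1 b, .w2, .w3, .v0,
        .v1 b, .u0, .u1, .rej, .rej, .rej, .rej, .rej, .rej, .rej, .rej, .rej, .rej] :
        Fin 24 → St q c) j
    | .inl (.inr (j, i)) => (![St.m0 i, .m1 i, .m2 i, .m2' i, .m3 i, .m4 i, .m5 i, .m6 i, .ad i] :
        Fin 9 → St q c) j
    | .inr (true, s) => St.r s
    | .inr (false, s) => St.ex s)) := by
    intro t
    cases t with
    | cp0 => exact ⟨.inl (.inl (0, true)), rfl⟩
    | cp1 b => exact ⟨.inl (.inl (1, b)), rfl⟩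
    | cp2 => exact ⟨.inl (.inl (2, true)), rfl⟩
    | rs0 => exact ⟨.inl (.inl (3, true)), rfl⟩
    | rs1 b => exact ⟨.inl (.inl (4, b)), rfl⟩
    | one => exact ⟨.inl (.inl (5, true)), rfl⟩
    | w0 => exact ⟨.inl (.inl (6, true)), rfl⟩
    | w1 b => exact ⟨.inl (.inl (7, b)), rfl⟩
    | w2 => exact ⟨.inl (.inl (8, true)), rfl⟩
    | w3 => exact ⟨.inl (.inl (9, true)), rfl⟩
    | v0 => exact ⟨.inl (.inl (10, true)), rfl⟩
    | v1 b => exact ⟨.inl (.inl (11, b)), rfl⟩
    | u0 => exact ⟨.inl (.inl (12, true)), rfl⟩
    | u1 => exact ⟨.inl (.inl (13, true)), rfl⟩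
    | rej => exact ⟨.inl (.inl (14, true)), rfl⟩
    | m0 i => exact ⟨.inl (.inr (0, i)), rfl⟩
    | m1 i => exact ⟨.inl (.inr (1, i)), rfl⟩
    | m2 i => exact ⟨.inl (.inr (2, i)), rfl⟩
    | m2' i => exact ⟨.inl (.inr (3, i)), rfl⟩
    | m3 i => exact ⟨.inl (.inr (4, i)), rfl⟩
    | m4 i => exact ⟨.inl (.inr (5, i)), rfl⟩
    | m5 i => exact ⟨.inl (.inr (6, i)), rfl⟩
    | m6 i => exact ⟨.inl (.inr (7, i)), rfl⟩
    | ad i => exact ⟨.inl (.inr (8, i)), rfl⟩
    | r s => exact ⟨.inr (true, s), rfl⟩
    | ex s => exact ⟨.inr (false, s), rfl⟩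
  exact Finite.of_surjective _ f

/-- the next push of the last phase of the clock -/
def nxa (q c i : ℕ) : St q c := if h : i < c then .ad ⟨i, h⟩ else .w0

/-- the next multiplication -/
def nx (q c i : ℕ) : St q c := if h : i < c then .m0 ⟨i, h⟩ else nxa q c 0

/-- The machine `M` with a clock of length `n ^ c + c`. -/
def ccode (M : Machine) (c : ℕ) : St M.q c → GI (Fin (M.k + 2) ⊕ Fin 4) (St M.q c)
  | .cp0 => .pop (.inl 0) .rs0 (.cp1 false) (.cp1 true)
  | .cp1 b => .push (.inr 3) b .cp2
  | .cp2 => .push (.inr 2) true .cp0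
  | .rs0 => .pop (.inr 3) .one (.rs1 false) (.rs1 true)
  | .rs1 b => .push (.inl 0) b .rs0
  | .one => .push (.inr 0) true (nx M.q c 0)
  | .m0 i => .pop (.inr 0) (.m5 i) (.m1 i) (.m1 i)
  | .m1 i => .pop (.inr 2) (.m3 i) (.m2 i) (.m2 i)
  | .m2 i => .push (.inr 3) true (.m2' i)
  | .m2' i => .push (.inr 1) true (.m1 i)
  | .m3 i => .pop (.inr 3) (.m0 i) (.m4 i) (.m4 i)
  | .m4 i => .push (.inr 2) true (.m3 i)
  | .m5 i => .pop (.inr 1) (nx M.q c (i.val + 1)) (.m6 i) (.m6 i)
  | .m6 i => .push (.inr 0) true (.m5 i)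
  | .ad i => .push (.inr 0) true (nxa M.q c (i.val + 1))
  | .w0 => .pop (.inl 1) .v0 (.w1 false) (.w1 true)
  | .w1 b => .push (.inr 3) b .w2
  | .w2 => .pop (.inr 0) .rej .w3 .w3
  | .w3 => .push (.inr 1) true .w0
  | .v0 => .pop (.inr 3) .u0 (.v1 false) (.v1 true)
  | .v1 b => .push (.inl 1) b .v0
  | .u0 => .pop (.inr 1) (.r 0) .u1 .u1
  | .u1 => .push (.inr 0) true .u0
  | .rej => .halt false
  | .r s => match M.code s with
    | .halt b => .halt b
    | _ => .pop (.inr 0) .rej (.ex s) (.ex s)
  | .ex s => match M.code s with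
    | .push i b n => .push (.inl i) b (.r n)
    | .pop i e z o => .pop (.inl i) (.r e) (.r z) (.r o)
    | .query i n y => .query (.inl i) (.r n) (.r y)
    | .halt b => .halt b

variable {M : Machine} {c : ℕ} {O : Oracle}

/-- a number in unary -/
abbrev u (n : ℕ) : List Bool := List.replicate n true

theorem u_succ' (n : ℕ) (l : List Bool) : u (n + 1) ++ l = u n ++ true :: l := by
  rw [u, List.replicate_succ', List.append_assoc]
  rfl

theorem loop_cp (S : Fin (M.k + 2) → List Bool) (a b : List Bool) : ∀ (x y z : List Bool),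
    Run O (ccode M c) (3 * x.length + 1) (cg .cp0 (Function.update S 0 x) a b y z)
      (cg .rs0 (Function.update S 0 []) a b (u x.length ++ y) (x.reverse ++ z))
  | [], y, z => neS _ _ _ _ _ rfl (Function.update_self ..)
  | β :: x, y, z => by
    have h1 : Run O (ccode M c) 1 (cg .cp0 (Function.update S 0 (β :: x)) a b y z)
        (cg (.cp1 β) (Function.update S 0 x) a b y z) := by
      have h := poS (O := O) (code := ccode M c) (q := .cp0) (f := St.cp1) (Function.update S 0 (β :: x)) a b y z
        rfl (Function.update_self ..)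
      rwa [Function.update_idem] at h
    have h2 : Run O (ccode M c) 1 (cg (.cp1 β) (Function.update S 0 x) a b y z)
        (cg .cp2 (Function.update S 0 x) a b y (β :: z)) := psZ _ _ _ _ _ rfl
    have h3 : Run O (ccode M c) 1 (cg .cp2 (Function.update S 0 x) a b y (β :: z))
        (cg .cp0 (Function.update S 0 x) a b (true :: y) (β :: z)) := psY _ _ _ _ _ rfl
    have h4 := (h1.trans (h2.trans h3)).trans (loop_cp S a b x (true :: y) (β :: z))
    rw [← u_succ', show x.reverse ++ β :: z = (β :: x).reverse ++ z by simp] at h4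
    exact h4.mono (by rw [List.length_cons]; omega)

theorem loop_rs (S : Fin (M.k + 2) → List Bool) (a b y : List Bool) : ∀ (z x : List Bool),
    Run O (ccode M c) (2 * z.length + 1) (cg .rs0 (Function.update S 0 x) a b y z)
      (cg .one (Function.update S 0 (z.reverse ++ x)) a b y [])
  | [], x => neZ _ _ _ _ rfl
  | β :: z, x => by
    have h1 : Run O (ccode M c) 1 (cg .rs0 (Function.update S 0 x) a b y (β :: z))
        (cg (.rs1 β) (Function.update S 0 x) a b y z) := poZ (f := St.rs1) _ _ _ _ _ rfl
    have h2 : Run O (ccode M c) 1 (cg (.rs1 β) (Function.update S 0 x) a b y z)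
        (cg .rs0 (Function.update S 0 (β :: x)) a b y z) := by
      have h := psS (O := O) (code := ccode M c) (q := .rs1 β) (Function.update S 0 x) a b y z rfl
      rwa [Function.update_idem, Function.update_self] at h
    have h4 := (h1.trans h2).trans (loop_rs S a b y z (β :: x))
    rw [show z.reverse ++ β :: x = (β :: z).reverse ++ x by simp] at h4
    exact h4.mono (by rw [List.length_cons]; omega)

theorem loop_m1 (i : Fin c) (S : Fin (M.k + 2) → List Bool) (a : List Bool) :
    ∀ (n : ℕ) (b z : List Bool),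
    Run O (ccode M c) (3 * n + 1) (cg (.m1 i) S a b (u n) z)
      (cg (.m3 i) S a (u n ++ b) [] (u n ++ z))
  | 0, b, z => neY _ _ _ _ rfl
  | n + 1, b, z => by
    have h1 : Run O (ccode M c) 1 (cg (.m1 i) S a b (u (n + 1)) z)
        (cg (.m2 i) S a b (u n) z) := poY (f := fun _ => St.m2 i) _ _ _ _ _ rfl
    have h2 : Run O (ccode M c) 1 (cg (.m2 i) S a b (u n) z)
        (cg (.m2' i) S a b (u n) (true :: z)) := psZ _ _ _ _ _ rfl
    have h3 : Run O (ccode M c) 1 (cg (.m2' i) S a b (u n) (true :: z))
        (cg (.m1 i) S a (true :: b) (u n) (true :: z)) := psB _ _ _ _ _ rfl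
    have h4 := (h1.trans (h2.trans h3)).trans (loop_m1 i S a n (true :: b) (true :: z))
    rw [← u_succ', ← u_succ'] at h4
    exact h4.mono (by omega)

theorem loop_m3 (i : Fin c) (S : Fin (M.k + 2) → List Bool) (a b : List Bool) :
    ∀ (n : ℕ) (y : List Bool),
    Run O (ccode M c) (2 * n + 1) (cg (.m3 i) S a b y (u n))
      (cg (.m0 i) S a b (u n ++ y) [])
  | 0, y => neZ _ _ _ _ rfl
  | n + 1, y => by
    have h1 : Run O (ccode M c) 1 (cg (.m3 i) S a b y (u (n + 1)))
        (cg (.m4 i) S a b y (u n)) := poZ (f := fun _ => St.m4 i) _ _ _ _ _ rfl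
    have h2 : Run O (ccode M c) 1 (cg (.m4 i) S a b y (u n))
        (cg (.m3 i) S a b (true :: y) (u n)) := psY _ _ _ _ _ rfl
    have h4 := (h1.trans h2).trans (loop_m3 i S a b n (true :: y))
    rw [← u_succ'] at h4
    exact h4.mono (by omega)

theorem loop_m0 (i : Fin c) (S : Fin (M.k + 2) → List Bool) (n : ℕ) : ∀ (a b : ℕ),
    Run O (ccode M c) (a * (5 * n + 3) + 1) (cg (.m0 i) S (u a) (u b) (u n) [])
      (cg (.m5 i) S [] (u (b + a * n)) (u n) [])
  | 0, b => by
    have h1 : Run O (ccode M c) 1 (cg (.m0 i) S [] (u b) (u n) [])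
        (cg (.m5 i) S [] (u b) (u n) []) := neA _ _ _ _ rfl
    have e1 : b + 0 * n = b := by ring
    rw [e1]
    exact h1.mono (by omega)
  | a + 1, b => by
    have h1 : Run O (ccode M c) 1 (cg (.m0 i) S (u (a + 1)) (u b) (u n) [])
        (cg (.m1 i) S (u a) (u b) (u n) []) := poA (f := fun _ => St.m1 i) _ _ _ _ _ rfl
    have h2 := loop_m1 (O := O) i S (u a) n (u b) []
    have h3 := loop_m3 (O := O) i S (u a) (u n ++ u b) n []
    rw [List.append_nil] at h2 h3
    have e : u n ++ u b = u (b + n) := by
      rw [u, u, ← List.replicate_add, Nat.add_comm]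
    rw [e] at h2 h3
    have h4 := h1.trans (h2.trans (h3.trans (loop_m0 i S n a (b + n))))
    rw [show b + n + a * n = b + (a + 1) * n by ring] at h4
    exact h4.mono (by ring_nf; omega)

theorem loop_m5 (i : Fin c) (S : Fin (M.k + 2) → List Bool) (y z : List Bool) : ∀ (b a : ℕ),
    Run O (ccode M c) (2 * b + 1) (cg (.m5 i) S (u a) (u b) y z)
      (cg (nx M.q c (i.val + 1)) S (u (a + b)) [] y z)
  | 0, a => neB _ _ _ _ rfl
  | b + 1, a => by
    have h1 : Run O (ccode M c) 1 (cg (.m5 i) S (u a) (u (b + 1)) y z)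
        (cg (.m6 i) S (u a) (u b) y z) := poB (f := fun _ => St.m6 i) _ _ _ _ _ rfl
    have h2 : Run O (ccode M c) 1 (cg (.m6 i) S (u a) (u b) y z)
        (cg (.m5 i) S (u (a + 1)) (u b) y z) := psA _ _ _ _ _ rfl
    have h4 := (h1.trans h2).trans (loop_m5 i S y z b (a + 1))
    rw [show a + 1 + b = a + (b + 1) by ring] at h4
    exact h4.mono (by omega)

theorem stage (i : Fin c) (S : Fin (M.k + 2) → List Bool) (n a : ℕ) :
    Run O (ccode M c) (a * (7 * n + 3) + 2) (cg (.m0 i) S (u a) [] (u n) [])
      (cg (nx M.q c (i.val + 1)) S (u (a * n)) [] (u n) []) := by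
  have h1 := loop_m0 (O := O) i S n a 0
  have h2 := loop_m5 (O := O) i S (u n) [] (0 + a * n) 0
  have h3 := h1.trans h2
  rw [Nat.zero_add, Nat.zero_add] at h3
  exact h3.mono (by ring_nf; omega)

theorem stages (S : Fin (M.k + 2) → List Bool) (n : ℕ) : ∀ (j i : ℕ), i + j = c →
    Run O (ccode M c) (j * ((n + 1) ^ c * (7 * n + 3) + 2)) (cg (nx M.q c i) S (u (n ^ i)) [] (u n) [])
      (cg (nxa M.q c 0) S (u (n ^ c)) [] (u n) [])
  | 0, i, h => by
    rw [Nat.add_zero] at h
    subst h
    have e : nx M.q i i = nxa M.q i 0 := by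
      unfold nx
      rw [dif_neg (lt_irrefl i)]
    rw [e, Nat.zero_mul]
    exact Run.refl _ _ _
  | j + 1, i, h => by
    have hi : i < c := by omega
    have e : nx M.q c i = .m0 ⟨i, hi⟩ := by
      unfold nx
      rw [dif_pos hi]
    have h1 := stage (O := O) (M := M) ⟨i, hi⟩ S n (n ^ i)
    rw [← pow_succ] at h1
    rw [e]
    refine (h1.trans (stages S n j (i + 1) (by omega))).mono ?_
    have h2 : n ^ i ≤ (n + 1) ^ c := (Nat.pow_le_pow_left (by omega) i).trans
      (Nat.pow_le_pow_right (by omega) (by omega))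
    have h3 := Nat.mul_le_mul_right (7 * n + 3) h2
    have h4 := Nat.succ_mul j ((n + 1) ^ c * (7 * n + 3) + 2)
    rw [Nat.succ_eq_add_one] at h4
    omega

theorem adds (S : Fin (M.k + 2) → List Bool) (y : List Bool) : ∀ (j i a : ℕ), i + j = c →
    Run O (ccode M c) j (cg (nxa M.q c i) S (u a) [] y []) (cg .w0 S (u (a + j)) [] y [])
  | 0, i, a, h => by
    have e : nxa M.q c i = .w0 := by
      unfold nxa
      rw [dif_neg (by omega)]
    rw [e]
    exact Run.refl _ _ _
  | j + 1, i, a, h => by
    have hi : i < c := by omega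
    have e : nxa M.q c i = .ad ⟨i, hi⟩ := by
      unfold nxa
      rw [dif_pos hi]
    rw [e]
    have h1 : Run O (ccode M c) 1 (cg (.ad ⟨i, hi⟩) S (u a) [] y [])
        (cg (nxa M.q c (i + 1)) S (u (a + 1)) [] y []) := psA _ _ _ _ _ rfl
    have h2 := h1.trans (adds S y j (i + 1) (a + 1) (by omega))
    rw [show a + 1 + j = a + (j + 1) by ring] at h2
    exact h2.mono (by omega)

/-- the clock is set -/
theorem set_clock (S : Fin (M.k + 2) → List Bool) : ∃ y, Run O (ccode M c)
    (5 * (S 0).length + 3 + c * (((S 0).length + 1) ^ c * (7 * (S 0).length + 3) + 2) + c)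
    (cg .cp0 S [] [] [] []) (cg .w0 S (u (poly c (S 0).length)) [] y []) := by
  have e : Function.update S 0 (S 0) = S := Function.update_eq_self ..
  have h1 := loop_cp (O := O) (c := c) S [] [] (S 0) [] []
  rw [e, List.append_nil, List.append_nil] at h1
  have h2 := loop_rs (O := O) (c := c) S [] [] (u (S 0).length) (S 0).reverse []
  rw [List.reverse_reverse, List.append_nil, e] at h2
  have h3 : Run O (ccode M c) 1 (cg .one S [] [] (u (S 0).length) [])
      (cg (nx M.q c 0) S (u ((S 0).length ^ 0)) [] (u (S 0).length) []) := psA _ _ _ _ _ rfl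
  have h4 := stages (O := O) S (S 0).length c 0 (Nat.zero_add c)
  have h5 := adds (O := O) S (u (S 0).length) c 0 ((S 0).length ^ c) (Nat.zero_add c)
  refine ⟨_, (h1.trans (h2.trans (h3.trans (h4.trans h5)))).mono ?_⟩
  rw [List.length_reverse]
  omega

/-! ### the second input is short -/

theorem loop_w (S : Fin (M.k + 2) → List Bool) (y : List Bool) : ∀ (w : List Bool) (a b : ℕ)
    (z : List Bool), w.length ≤ a →
    Run O (ccode M c) (4 * w.length + 1) (cg .w0 (Function.update S 1 w) (u a) (u b) y z)
      (cg .v0 (Function.update S 1 []) (u (a - w.length)) (u (b + w.length)) y (w.reverse ++ z))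
  | [], a, b, z, _ => neS _ _ _ _ _ rfl (Function.update_self ..)
  | β :: w, a, b, z, hw => by
    rw [List.length_cons] at hw
    obtain ⟨a, rfl⟩ : ∃ a', a = a' + 1 := ⟨a - 1, by omega⟩
    have h1 : Run O (ccode M c) 1 (cg .w0 (Function.update S 1 (β :: w)) (u (a + 1)) (u b) y z)
        (cg (.w1 β) (Function.update S 1 w) (u (a + 1)) (u b) y z) := by
      have h := poS (O := O) (code := ccode M c) (q := .w0) (f := St.w1)
        (Function.update S 1 (β :: w)) (u (a + 1)) (u b) y z rfl (Function.update_self ..)
      rwa [Function.update_idem] at h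
    have h2 : Run O (ccode M c) 1 (cg (.w1 β) (Function.update S 1 w) (u (a + 1)) (u b) y z)
        (cg .w2 (Function.update S 1 w) (u (a + 1)) (u b) y (β :: z)) := psZ _ _ _ _ _ rfl
    have h3 : Run O (ccode M c) 1 (cg .w2 (Function.update S 1 w) (u (a + 1)) (u b) y (β :: z))
        (cg .w3 (Function.update S 1 w) (u a) (u b) y (β :: z)) :=
      poA (f := fun _ => St.w3) _ _ _ _ _ rfl
    have h4 : Run O (ccode M c) 1 (cg .w3 (Function.update S 1 w) (u a) (u b) y (β :: z))
        (cg .w0 (Function.update S 1 w) (u a) (u (b + 1)) y (β :: z)) := psB _ _ _ _ _ rfl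
    have h5 := (h1.trans (h2.trans (h3.trans h4))).trans
      (loop_w S y w a (b + 1) (β :: z) (by omega))
    rw [show w.reverse ++ β :: z = (β :: w).reverse ++ z by simp,
      show a - w.length = a + 1 - (β :: w).length by rw [List.length_cons]; omega,
      show b + 1 + w.length = b + (β :: w).length by rw [List.length_cons]; omega] at h5
    exact h5.mono (by rw [List.length_cons]; omega)

theorem loop_w_long (S : Fin (M.k + 2) → List Bool) (y : List Bool) : ∀ (a : ℕ) (w : List Bool)
    (b : ℕ) (z : List Bool), a < w.length →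
    Halts O (ccode M c) (cg .w0 (Function.update S 1 w) (u a) (u b) y z) false (4 * a + 3)
  | a, [], b, z, hw => absurd hw (Nat.not_lt_zero _)
  | a, β :: w, b, z, hw => by
    rw [List.length_cons] at hw
    have h1 : Run O (ccode M c) 1 (cg .w0 (Function.update S 1 (β :: w)) (u a) (u b) y z)
        (cg (.w1 β) (Function.update S 1 w) (u a) (u b) y z) := by
      have h := poS (O := O) (code := ccode M c) (q := .w0) (f := St.w1)
        (Function.update S 1 (β :: w)) (u a) (u b) y z rfl (Function.update_self ..)
      rwa [Function.update_idem] at h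
    have h2 : Run O (ccode M c) 1 (cg (.w1 β) (Function.update S 1 w) (u a) (u b) y z)
        (cg .w2 (Function.update S 1 w) (u a) (u b) y (β :: z)) := psZ _ _ _ _ _ rfl
    cases a with
    | zero =>
      have h3 : Run O (ccode M c) 1 (cg .w2 (Function.update S 1 w) (u 0) (u b) y (β :: z))
          (cg .rej (Function.update S 1 w) [] (u b) y (β :: z)) := neA _ _ _ _ rfl
      have h4 : Halts O (ccode M c) (cg .rej (Function.update S 1 w) [] (u b) y (β :: z)) false 0 :=
        Halts.now rfl
      exact ((h1.trans (h2.trans h3)).halts h4).mono (by omega)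
    | succ a =>
      have h3 : Run O (ccode M c) 1 (cg .w2 (Function.update S 1 w) (u (a + 1)) (u b) y (β :: z))
          (cg .w3 (Function.update S 1 w) (u a) (u b) y (β :: z)) :=
        poA (f := fun _ => St.w3) _ _ _ _ _ rfl
      have h4 : Run O (ccode M c) 1 (cg .w3 (Function.update S 1 w) (u a) (u b) y (β :: z))
          (cg .w0 (Function.update S 1 w) (u a) (u (b + 1)) y (β :: z)) := psB _ _ _ _ _ rfl
      exact ((h1.trans (h2.trans (h3.trans h4))).halts
        (loop_w_long S y a w (b + 1) (β :: z) (by omega))).mono (by omega)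

theorem loop_v (S : Fin (M.k + 2) → List Bool) (a b y : List Bool) : ∀ (z w : List Bool),
    Run O (ccode M c) (2 * z.length + 1) (cg .v0 (Function.update S 1 w) a b y z)
      (cg .u0 (Function.update S 1 (z.reverse ++ w)) a b y [])
  | [], w => neZ _ _ _ _ rfl
  | β :: z, w => by
    have h1 : Run O (ccode M c) 1 (cg .v0 (Function.update S 1 w) a b y (β :: z))
        (cg (.v1 β) (Function.update S 1 w) a b y z) := poZ (f := St.v1) _ _ _ _ _ rfl
    have h2 : Run O (ccode M c) 1 (cg (.v1 β) (Function.update S 1 w) a b y z)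
        (cg .v0 (Function.update S 1 (β :: w)) a b y z) := by
      have h := psS (O := O) (code := ccode M c) (q := .v1 β) (Function.update S 1 w) a b y z rfl
      rwa [Function.update_idem, Function.update_self] at h
    have h4 := (h1.trans h2).trans (loop_v S a b y z (β :: w))
    rw [show z.reverse ++ β :: w = (β :: z).reverse ++ w by simp] at h4
    exact h4.mono (by rw [List.length_cons]; omega)

theorem loop_u (S : Fin (M.k + 2) → List Bool) (y z : List Bool) : ∀ (b a : ℕ),
    Run O (ccode M c) (2 * b + 1) (cg .u0 S (u a) (u b) y z) (cg (.r 0) S (u (a + b)) [] y z)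
  | 0, a => neB _ _ _ _ rfl
  | b + 1, a => by
    have h1 : Run O (ccode M c) 1 (cg .u0 S (u a) (u (b + 1)) y z)
        (cg .u1 S (u a) (u b) y z) := poB (f := fun _ => St.u1) _ _ _ _ _ rfl
    have h2 : Run O (ccode M c) 1 (cg .u1 S (u a) (u b) y z)
        (cg .u0 S (u (a + 1)) (u b) y z) := psA _ _ _ _ _ rfl
    have h4 := (h1.trans h2).trans (loop_u S y z b (a + 1))
    rw [show a + 1 + b = a + (b + 1) by ring] at h4
    exact h4.mono (by omega)

/-- the second input is compared with the clock -/
theorem check_w (S : Fin (M.k + 2) → List Bool) (y : List Bool) (a : ℕ) (hw : (S 1).length ≤ a) :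
    Run O (ccode M c) (8 * a + 3) (cg .w0 S (u a) [] y []) (cg (.r 0) S (u a) [] y []) := by
  have e : Function.update S 1 (S 1) = S := Function.update_eq_self ..
  have h1 := loop_w (O := O) (c := c) S y (S 1) a 0 [] hw
  rw [e, List.append_nil] at h1
  have h2 := loop_v (O := O) (c := c) S (u (a - (S 1).length)) (u (0 + (S 1).length)) y
    (S 1).reverse []
  rw [List.reverse_reverse, List.append_nil, e] at h2
  have h3 := loop_u (O := O) (c := c) S y [] (0 + (S 1).length) (a - (S 1).length)
  rw [show a - (S 1).length + (0 + (S 1).length) = a by omega] at h3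
  refine (h1.trans (h2.trans h3)).mono ?_
  rw [List.length_reverse]
  omega

theorem check_w_long (S : Fin (M.k + 2) → List Bool) (y : List Bool) (a : ℕ)
    (hw : a < (S 1).length) :
    Halts O (ccode M c) (cg .w0 S (u a) [] y []) false (4 * a + 3) := by
  have e : Function.update S 1 (S 1) = S := Function.update_eq_self ..
  have h1 := loop_w_long (O := O) (c := c) S y a (S 1) 0 [] hw
  rwa [e] at h1

/-! ### the simulation -/

open Classical in
theorem sim (b y z : List Bool) : ∀ (t : ℕ) (C : Cfg M),
    Halts O (ccode M c) (cg (.r C.state) C.stack (u t) b y z)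
      (decide (M.code ((step O M)^[t] C).state = .halt true)) (2 * t + 1) := by
  intro t
  induction t with
  | zero =>
    intro C
    rw [Function.iterate_zero, id]
    cases hc : M.code C.state with
    | halt β =>
      have h1 : ccode M c (.r C.state) = .halt β := by
        unfold ccode
        simp only [hc]
      have h2 : decide ((Instr.halt β : Instr (M.k + 2) (M.q + 1)) = .halt true) = β := by
        cases β <;> simp
      rw [h2]
      exact (Halts.now h1).mono (by omega)
    | push i β n =>
      have h1 : ccode M c (.r C.state) = .pop (.inr 0) .rej (.ex C.state) (.ex C.state) := by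
        unfold ccode
        simp only [hc]
      have h2 : decide ((Instr.push i β n : Instr (M.k + 2) (M.q + 1)) = .halt true) = false := by
        simp
      rw [h2]
      have h3 : Halts O (ccode M c) (cg .rej C.stack [] b y z) false 0 := Halts.now rfl
      exact ((neA (O := O) C.stack b y z h1).halts h3).mono (by omega)
    | pop i e β n =>
      have h1 : ccode M c (.r C.state) = .pop (.inr 0) .rej (.ex C.state) (.ex C.state) := by
        unfold ccode
        simp only [hc]
      have h2 : decide ((Instr.pop i e β n : Instr (M.k + 2) (M.q + 1)) = .halt true) = false := by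
        simp
      rw [h2]
      have h3 : Halts O (ccode M c) (cg .rej C.stack [] b y z) false 0 := Halts.now rfl
      exact ((neA (O := O) C.stack b y z h1).halts h3).mono (by omega)
    | query i β n =>
      have h1 : ccode M c (.r C.state) = .pop (.inr 0) .rej (.ex C.state) (.ex C.state) := by
        unfold ccode
        simp only [hc]
      have h2 : decide ((Instr.query i β n : Instr (M.k + 2) (M.q + 1)) = .halt true) = false := by
        simp
      rw [h2]
      have h3 : Halts O (ccode M c) (cg .rej C.stack [] b y z) false 0 := Halts.now rfl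
      exact ((neA (O := O) C.stack b y z h1).halts h3).mono (by omega)
  | succ t ih =>
    intro C
    rw [Function.iterate_succ_apply]
    cases hc : M.code C.state with
    | halt β =>
      have h1 : ccode M c (.r C.state) = .halt β := by
        unfold ccode
        simp only [hc]
      rw [step_fix hc, iter_fix hc, hc]
      have h2 : decide ((Instr.halt β : Instr (M.k + 2) (M.q + 1)) = .halt true) = β := by
        cases β <;> simp
      rw [h2]
      exact (Halts.now h1).mono (by omega)
    | push i β n =>
      have h1 : ccode M c (.r C.state) = .pop (.inr 0) .rej (.ex C.state) (.ex C.state) := by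
        unfold ccode
        simp only [hc]
      have h2 : ccode M c (.ex C.state) = .push (.inl i) β (.r n) := by
        unfold ccode
        simp only [hc]
      have h3 : Run O (ccode M c) 1 (cg (.r C.state) C.stack (u (t + 1)) b y z)
        (cg (.ex C.state) C.stack (u t) b y z) := poA (f := fun _ => St.ex C.state) _ _ _ _ _ h1
      have h4 := psS (O := O) C.stack (u t) b y z h2
      have h5 := ih (step O M C)
      rw [m_push hc] at h5 ⊢
      exact (h3.trans (h4)).halts h5 |>.mono (by omega)
    | pop i e z' o' =>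
      have h1 : ccode M c (.r C.state) = .pop (.inr 0) .rej (.ex C.state) (.ex C.state) := by
        unfold ccode
        simp only [hc]
      have h2 : ccode M c (.ex C.state) = .pop (.inl i) (.r e) (.r z') (.r o') := by
        unfold ccode
        simp only [hc]
      have h3 : Run O (ccode M c) 1 (cg (.r C.state) C.stack (u (t + 1)) b y z)
        (cg (.ex C.state) C.stack (u t) b y z) := poA (f := fun _ => St.ex C.state) _ _ _ _ _ h1
      have h5 := ih (step O M C)
      rcases hS : C.stack i with _ | ⟨_ | _, s⟩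
      · rw [m_empty hc hS] at h5 ⊢
        exact ((h3.trans (neS (O := O) C.stack (u t) b y z h2 hS)).halts h5).mono (by omega)
      · rw [m_false hc hS] at h5 ⊢
        exact ((h3.trans (poS (O := O) (f := fun β => if β = true then St.r o' else St.r z')
          C.stack (u t) b y z h2 hS)).halts h5).mono (by omega)
      · rw [m_true hc hS] at h5 ⊢
        exact ((h3.trans (poS (O := O) (f := fun β => if β = true then St.r o' else St.r z')
          C.stack (u t) b y z h2 hS)).halts h5).mono (by omega)
    | query i n y' =>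
      have h1 : ccode M c (.r C.state) = .pop (.inr 0) .rej (.ex C.state) (.ex C.state) := by
        unfold ccode
        simp only [hc]
      have h2 : ccode M c (.ex C.state) = .query (.inl i) (.r n) (.r y') := by
        unfold ccode
        simp only [hc]
      have h3 : Run O (ccode M c) 1 (cg (.r C.state) C.stack (u (t + 1)) b y z)
        (cg (.ex C.state) C.stack (u t) b y z) := poA (f := fun _ => St.ex C.state) _ _ _ _ _ h1
      have h4 := g_query (O := O) (S := Sum.elim C.stack ![u t, b, y, z]) h2
      have h5 := ih (step O M C)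
      rw [m_query hc] at h5 ⊢
      have h6 : (Sum.elim C.stack ![u t, b, y, z] : Fin (M.k + 2) ⊕ Fin 4 → List Bool) (.inl i) =
        C.stack i := rfl
      rw [h6] at h4
      by_cases hO : O (C.stack i) = true
      · rw [if_pos hO] at h4 h5 ⊢
        exact ((h3.trans h4).halts h5).mono (by omega)
      · rw [if_neg hO] at h4 h5 ⊢
        exact ((h3.trans h4).halts h5).mono (by omega)

/-! ### the theorem -/

theorem pb_comp {f : ℕ → ℕ} (hf : PB f) (d : ℕ) : PB fun n => poly d (f n) :=
  pb_add (pb_pow hf d) (pb_const d)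

open Classical in
/-- **Machines with a clock.** -/
theorem clocked (M : Machine) (c : ℕ) : ∃ (M' : Machine) (c' : ℕ),
    ∀ (O : Oracle) (x w : List Bool), HaltsM O M' x w
      (decide (w.length ≤ poly c x.length ∧ AcceptsIn O M x w (poly c x.length)))
      (poly c' x.length) := by
  obtain ⟨M', hM'⟩ := toMachine (ccode M c) (.inl 0) (.inl 1)
    (fun h => absurd (Sum.inl.inj h) (by simp)) .cp0
  obtain ⟨c', hc'⟩ : PB fun n => (5 * n + 3 + c * ((n + 1) ^ c * (7 * n + 3) + 2) + c) +
      ((8 * poly c n + 3) + (2 * poly c n + 1)) :=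
    pb_add (pb_add (pb_add (pb_add (pb_mul (pb_const 5) pb_id) (pb_const 3)) (pb_mul (pb_const c)
      (pb_add (pb_mul (pb_pow (pb_add pb_id (pb_const 1)) c) (pb_add (pb_mul (pb_const 7) pb_id)
      (pb_const 3))) (pb_const 2)))) (pb_const c)) (pb_add (pb_add (pb_mul (pb_const 8) (pb_poly c))
      (pb_const 3)) (pb_add (pb_mul (pb_const 2) (pb_poly c)) (pb_const 1)))
  refine ⟨M', c', fun O x w => ?_⟩
  have hcx : (5 * x.length + 3 + c * ((x.length + 1) ^ c * (7 * x.length + 3) + 2) + c) +
      ((8 * poly c x.length + 3) + (2 * poly c x.length + 1)) ≤ poly c' x.length := hc' x.length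
  refine (hM' O x w _ _ ?_).mono hcx
  have e : ((.cp0, ini (.inl 0) (.inl 1) x w) : St M.q c × (Fin (M.k + 2) ⊕ Fin 4 → List Bool)) =
      cg .cp0 (start M x w).stack [] [] [] [] := by
    unfold cg
    congr 1
    funext j
    rcases j with j | j
    · unfold ini start
      simp only [Sum.elim_inl, Sum.inl.injEq]
    · unfold ini
      rw [if_neg (by simp), if_neg (by simp)]
      fin_cases j <;> rfl
  rw [e]
  have hx : (start M x w).stack 0 = x := rfl
  have hw : (start M x w).stack 1 = w := by
    unfold start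
    simp
  obtain ⟨y, h1⟩ := set_clock (O := O) (c := c) (M := M) (start M x w).stack
  rw [hx] at h1
  by_cases hl : w.length ≤ poly c x.length
  · have h2 := check_w (O := O) (c := c) (start M x w).stack y (poly c x.length) (by rwa [hw])
    have h3 := sim (O := O) (c := c) [] y [] (poly c x.length) (start M x w)
    have h4 := (h1.trans h2).halts h3
    have h5 : decide (w.length ≤ poly c x.length ∧ AcceptsIn O M x w (poly c x.length)) =
        decide (M.code ((step O M)^[poly c x.length] (start M x w)).state = .halt true) := by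
      refine decide_eq_decide.2 ⟨fun h => h.2, fun h => ⟨hl, h⟩⟩
    rw [h5]
    exact h4.mono (by omega)
  · have h2 := check_w_long (O := O) (c := c) (start M x w).stack y (poly c x.length)
      (by rw [hw]; omega)
    have h4 := h1.halts h2
    have h5 : decide (w.length ≤ poly c x.length ∧ AcceptsIn O M x w (poly c x.length)) =
        false := decide_eq_false fun h => hl h.1
    rw [h5]
    exact h4.mono (by omega)

end ESY.Btw
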