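import Pool.Agent.Lib.MP_80aaf5_lc.Local

/-!
# Machines with arbitrary finite sets of stacks and states
-/

set_option autoImplicit false

namespace ESY.Btw

open ESY

/-! ### halting -/

/-- `M` with oracle `O` stops on `(x, w)` within `n` steps, with the answer `b`. -/
def HaltsM (O : Oracle) (M : Machine) (x w : List Bool) (b : Bool) (n : ℕ) : Prop :=
  ∃ t ≤ n, M.code ((step O M)^[t] (start M x w)).state = .halt b

theorem step_fix {O : Oracle} {M : Machine} {c : Cfg M} {b : Bool}
    (h : M.code c.state = .halt b) : step O M c = c := by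
  unfold step
  rw [h]

theorem iter_fix {O : Oracle} {M : Machine} {c : Cfg M} {b : Bool}
    (h : M.code c.state = .halt b) (n : ℕ) : (step O M)^[n] c = c :=
  Function.iterate_fixed (step_fix h) n

theorem iter_stay {O : Oracle} {M : Machine} {c : Cfg M} {b : Bool} {t T : ℕ}
    (h : M.code ((step O M)^[t] c).state = .halt b) (hT : t ≤ T) :
    (step O M)^[T] c = (step O M)^[t] c := by
  obtain ⟨d, rfl⟩ := Nat.exists_eq_add_of_le hT
  rw [Nat.add_comm, Function.iterate_add_apply]
  exact iter_fix h d

/-- two halting answers agree -/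
theorem halt_unique {O : Oracle} {M : Machine} {c : Cfg M} {b b' : Bool} {t t' : ℕ}
    (h : M.code ((step O M)^[t] c).state = .halt b)
    (h' : M.code ((step O M)^[t'] c).state = .halt b') : b = b' := by
  rcases le_total t t' with hl | hl
  · rw [iter_stay h hl, h] at h'
    exact Instr.halt.inj h'
  · rw [iter_stay h' hl, h'] at h
    exact (Instr.halt.inj h).symm

theorem HaltsM.mono {O : Oracle} {M : Machine} {x w : List Bool} {b : Bool} {n m : ℕ}
    (h : HaltsM O M x w b n) (hm : n ≤ m) : HaltsM O M x w b m := by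
  obtain ⟨t, ht, h⟩ := h
  exact ⟨t, ht.trans hm, h⟩

theorem HaltsM.iff {O : Oracle} {M : Machine} {x w : List Bool} {b : Bool} {n T : ℕ}
    (h : HaltsM O M x w b n) (hT : n ≤ T) : AcceptsIn O M x w T ↔ b = true := by
  obtain ⟨t, ht, h⟩ := h
  unfold AcceptsIn
  rw [iter_stay h (ht.trans hT), h]
  exact ⟨fun h => Instr.halt.inj h, fun h => by rw [h]⟩

theorem HaltsM.sound {O : Oracle} {M : Machine} {x w : List Bool} {b : Bool} {n T : ℕ}
    (h : HaltsM O M x w b n) (ha : AcceptsIn O M x w T) : b = true := by
  obtain ⟨t, ht, h⟩ := h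
  exact halt_unique h ha

/-! ### general machines -/

/-- instructions over arbitrary types of stacks and states -/
inductive GI (K Q : Type) : Type
  | push (i : K) (b : Bool) (next : Q)
  | pop (i : K) (ifEmpty ifZero ifOne : Q)
  | query (i : K) (ifNo ifYes : Q)
  | halt (answer : Bool)

variable {K Q : Type} [DecidableEq K]

/-- one step -/
def gstep (O : Oracle) (code : Q → GI K Q) (c : Q × (K → List Bool)) : Q × (K → List Bool) :=
  match code c.1 with
  | .push i b next => (next, Function.update c.2 i (b :: c.2 i))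
  | .pop i e z o =>
    match c.2 i with
    | [] => (e, c.2)
    | false :: s => (z, Function.update c.2 i s)
    | true :: s => (o, Function.update c.2 i s)
  | .query i n y => (if O (c.2 i) = true then y else n, c.2)
  | .halt _ => c

/-- reachability in at most `n` steps -/
def Run (O : Oracle) (code : Q → GI K Q) (n : ℕ) (c c' : Q × (K → List Bool)) : Prop :=
  ∃ t ≤ n, (gstep O code)^[t] c = c'

/-- the machine stops within `n` steps with the answer `b` -/
def Halts (O : Oracle) (code : Q → GI K Q) (c : Q × (K → List Bool)) (b : Bool) (n : ℕ) : Prop :=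
  ∃ t ≤ n, code ((gstep O code)^[t] c).1 = .halt b

theorem Run.refl (O : Oracle) (code : Q → GI K Q) (c : Q × (K → List Bool)) : Run O code 0 c c :=
  ⟨0, le_rfl, rfl⟩

theorem Run.mono {O : Oracle} {code : Q → GI K Q} {n m : ℕ} {c c' : Q × (K → List Bool)}
    (h : Run O code n c c') (hm : n ≤ m) : Run O code m c c' := by
  obtain ⟨t, ht, h⟩ := h
  exact ⟨t, ht.trans hm, h⟩

theorem Run.trans {O : Oracle} {code : Q → GI K Q} {n m : ℕ} {c c' c'' : Q × (K → List Bool)}
    (h : Run O code n c c') (h' : Run O code m c' c'') : Run O code (n + m) c c'' := by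
  obtain ⟨t, ht, h⟩ := h
  obtain ⟨t', ht', h'⟩ := h'
  refine ⟨t' + t, by omega, ?_⟩
  rw [Function.iterate_add_apply, h, h']

theorem Run.one {O : Oracle} {code : Q → GI K Q} {c c' : Q × (K → List Bool)}
    (h : gstep O code c = c') : Run O code 1 c c' := ⟨1, le_rfl, h⟩

theorem Run.halts {O : Oracle} {code : Q → GI K Q} {n m : ℕ} {c c' : Q × (K → List Bool)}
    {b : Bool} (h : Run O code n c c') (h' : Halts O code c' b m) : Halts O code c b (n + m) := by
  obtain ⟨t, ht, h⟩ := h
  obtain ⟨t', ht', h'⟩ := h'
  refine ⟨t' + t, by omega, ?_⟩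
  rw [Function.iterate_add_apply, h, h']

theorem Halts.now {O : Oracle} {code : Q → GI K Q} {c : Q × (K → List Bool)} {b : Bool}
    (h : code c.1 = .halt b) : Halts O code c b 0 := ⟨0, le_rfl, h⟩

theorem Halts.mono {O : Oracle} {code : Q → GI K Q} {n m : ℕ} {c : Q × (K → List Bool)}
    {b : Bool} (h : Halts O code c b n) (hm : n ≤ m) : Halts O code c b m := by
  obtain ⟨t, ht, h⟩ := h
  exact ⟨t, ht.trans hm, h⟩

/-! single steps -/

theorem g_push {O : Oracle} {code : Q → GI K Q} {q n : Q} {S : K → List Bool} {i : K} {b : Bool}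
    (h : code q = .push i b n) :
    Run O code 1 (q, S) (n, Function.update S i (b :: S i)) := by
  refine Run.one ?_
  unfold gstep
  rw [h]

theorem g_empty {O : Oracle} {code : Q → GI K Q} {q e z o : Q} {S : K → List Bool} {i : K}
    (h : code q = .pop i e z o) (hS : S i = []) : Run O code 1 (q, S) (e, S) := by
  refine Run.one ?_
  unfold gstep
  rw [h]
  simp only [hS]

theorem g_false {O : Oracle} {code : Q → GI K Q} {q e z o : Q} {S : K → List Bool} {i : K}
    {s : List Bool} (h : code q = .pop i e z o) (hS : S i = false :: s) :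
    Run O code 1 (q, S) (z, Function.update S i s) := by
  refine Run.one ?_
  unfold gstep
  rw [h]
  simp only [hS]

theorem g_true {O : Oracle} {code : Q → GI K Q} {q e z o : Q} {S : K → List Bool} {i : K}
    {s : List Bool} (h : code q = .pop i e z o) (hS : S i = true :: s) :
    Run O code 1 (q, S) (o, Function.update S i s) := by
  refine Run.one ?_
  unfold gstep
  rw [h]
  simp only [hS]

theorem g_pop {O : Oracle} {code : Q → GI K Q} {q e : Q} {f : Bool → Q} {S : K → List Bool}
    {i : K} {s : List Bool} {b : Bool} (h : code q = .pop i e (f false) (f true))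
    (hS : S i = b :: s) : Run O code 1 (q, S) (f b, Function.update S i s) := by
  cases b
  · exact g_false h hS
  · exact g_true h hS

theorem g_query {O : Oracle} {code : Q → GI K Q} {q n y : Q} {S : K → List Bool} {i : K}
    (h : code q = .query i n y) :
    Run O code 1 (q, S) (if O (S i) = true then y else n, S) := by
  refine Run.one ?_
  unfold gstep
  rw [h]

/-! ### conversion -/

/-- the start configuration -/
def ini (k0 k1 : K) (x w : List Bool) : K → List Bool :=
  fun k => if k = k0 then x else if k = k1 then w else []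

/-- renaming of stacks and states -/
def gmap {k q : ℕ} (eK : K ≃ Fin (k + 2)) (eQ : Q ≃ Fin (q + 1)) :
    GI K Q → Instr (k + 2) (q + 1)
  | .push i b n => .push (eK i) b (eQ n)
  | .pop i e z o => .pop (eK i) (eQ e) (eQ z) (eQ o)
  | .query i n y => .query (eK i) (eQ n) (eQ y)
  | .halt b => .halt b

/-- the machine with numbered states and stacks -/
def conv {k q : ℕ} (eK : K ≃ Fin (k + 2)) (eQ : Q ≃ Fin (q + 1)) (code : Q → GI K Q) :
    Machine where
  k := k
  q := q
  code s := gmap eK eQ (code (eQ.symm s))

/-- transport of configurations -/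
def tr {k q : ℕ} (eK : K ≃ Fin (k + 2)) (eQ : Q ≃ Fin (q + 1)) (code : Q → GI K Q)
    (c : Q × (K → List Bool)) : Cfg (conv eK eQ code) := ⟨eQ c.1, fun i => c.2 (eK.symm i)⟩

omit [DecidableEq K] in
theorem code_conv {k q : ℕ} (eK : K ≃ Fin (k + 2)) (eQ : Q ≃ Fin (q + 1)) (code : Q → GI K Q)
    (s : Q) : (conv eK eQ code).code (eQ s) = gmap eK eQ (code s) := by
  unfold conv
  simp only [Equiv.symm_apply_apply]

theorem update_symm {k : ℕ} (eK : K ≃ Fin (k + 2)) (S : K → List Bool) (i : K) (s : List Bool) :
    Function.update (fun j => S (eK.symm j)) (eK i) s =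
      (fun j => Function.update S i s (eK.symm j)) := by
  funext j
  by_cases h : j = eK i
  · subst h
    rw [Function.update_self, eK.symm_apply_apply, Function.update_self]
  · rw [Function.update_of_ne h, Function.update_of_ne]
    rintro rfl
    exact h (eK.apply_symm_apply j).symm

theorem m_push {O : Oracle} {M : Machine} {c : Cfg M} {i : Fin (M.k + 2)} {b : Bool}
    {n : Fin (M.q + 1)} (h : M.code c.state = .push i b n) :
    step O M c = ⟨n, Function.update c.stack i (b :: c.stack i)⟩ := by
  unfold step
  rw [h]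

theorem m_empty {O : Oracle} {M : Machine} {c : Cfg M} {i : Fin (M.k + 2)}
    {e z o : Fin (M.q + 1)} (h : M.code c.state = .pop i e z o) (hS : c.stack i = []) :
    step O M c = ⟨e, c.stack⟩ := by
  unfold step
  rw [h]
  simp only [hS]

theorem m_false {O : Oracle} {M : Machine} {c : Cfg M} {i : Fin (M.k + 2)}
    {e z o : Fin (M.q + 1)} {s : List Bool} (h : M.code c.state = .pop i e z o)
    (hS : c.stack i = false :: s) : step O M c = ⟨z, Function.update c.stack i s⟩ := by
  unfold step
  rw [h]
  simp only [hS]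

theorem m_true {O : Oracle} {M : Machine} {c : Cfg M} {i : Fin (M.k + 2)}
    {e z o : Fin (M.q + 1)} {s : List Bool} (h : M.code c.state = .pop i e z o)
    (hS : c.stack i = true :: s) : step O M c = ⟨o, Function.update c.stack i s⟩ := by
  unfold step
  rw [h]
  simp only [hS]

theorem m_query {O : Oracle} {M : Machine} {c : Cfg M} {i : Fin (M.k + 2)}
    {n y : Fin (M.q + 1)} (h : M.code c.state = .query i n y) :
    step O M c = ⟨if O (c.stack i) = true then y else n, c.stack⟩ := by
  unfold step
  rw [h]

theorem step_conv {k q : ℕ} (eK : K ≃ Fin (k + 2)) (eQ : Q ≃ Fin (q + 1)) (code : Q → GI K Q)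
    (O : Oracle) (c : Q × (K → List Bool)) :
    step O (conv eK eQ code) (tr eK eQ code c) = tr eK eQ code (gstep O code c) := by
  obtain ⟨s, S⟩ := c
  have h0 : (conv eK eQ code).code (tr eK eQ code (s, S)).state = gmap eK eQ (code s) :=
    code_conv eK eQ code s
  have hs : ∀ i : K, (tr eK eQ code (s, S)).stack (eK i) = S i := fun i =>
    congrArg S (eK.symm_apply_apply i)
  cases hc : code s with
  | push i b n =>
    rw [hc] at h0
    refine (m_push h0).trans ?_
    have h1 : gstep O code (s, S) = (n, Function.update S i (b :: S i)) := by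
      unfold gstep
      rw [hc]
    rw [hs i, h1]
    exact congrArg (Cfg.mk (M := conv eK eQ code) (eQ n)) (update_symm eK S i _)
  | pop i e z o =>
    rw [hc] at h0
    have h2 := hs i
    rcases hS : S i with _ | ⟨_ | _, r⟩
    · have h1 : gstep O code (s, S) = (e, S) := by
        unfold gstep
        rw [hc]
        simp only [hS]
      rw [hS] at h2
      rw [h1]
      exact m_empty h0 h2
    · have h1 : gstep O code (s, S) = (z, Function.update S i r) := by
        unfold gstep
        rw [hc]
        simp only [hS]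
      rw [hS] at h2
      rw [h1]
      exact (m_false h0 h2).trans
        (congrArg (Cfg.mk (M := conv eK eQ code) (eQ z)) (update_symm eK S i _))
    · have h1 : gstep O code (s, S) = (o, Function.update S i r) := by
        unfold gstep
        rw [hc]
        simp only [hS]
      rw [hS] at h2
      rw [h1]
      exact (m_true h0 h2).trans
        (congrArg (Cfg.mk (M := conv eK eQ code) (eQ o)) (update_symm eK S i _))
  | query i n y =>
    rw [hc] at h0
    have h1 : gstep O code (s, S) = (if O (S i) = true then y else n, S) := by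
      unfold gstep
      rw [hc]
    rw [h1]
    refine (m_query h0).trans ?_
    rw [hs i]
    unfold tr
    simp only
    by_cases hO : O (S i) = true
    · rw [if_pos hO, if_pos hO]
    · rw [if_neg hO, if_neg hO]
  | halt b =>
    rw [hc] at h0
    have h1 : gstep O code (s, S) = (s, S) := by
      unfold gstep
      rw [hc]
    rw [h1]
    exact step_fix h0

theorem iter_conv {k q : ℕ} (eK : K ≃ Fin (k + 2)) (eQ : Q ≃ Fin (q + 1)) (code : Q → GI K Q)
    (O : Oracle) (c : Q × (K → List Bool)) (t : ℕ) :
    (step O (conv eK eQ code))^[t] (tr eK eQ code c) = tr eK eQ code ((gstep O code)^[t] c) := by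
  induction t generalizing c with
  | zero => rfl
  | succ t ih => rw [Function.iterate_succ_apply, Function.iterate_succ_apply, step_conv, ih]

omit [DecidableEq K] in
theorem exists_equiv_one {Q : Type} [Finite Q] (q0 : Q) :
    ∃ (q : ℕ) (e : Q ≃ Fin (q + 1)), e q0 = 0 := by
  obtain ⟨n, ⟨e⟩⟩ := Finite.exists_equiv_fin Q
  obtain ⟨q, rfl⟩ : ∃ q, n = q + 1 := by
    cases n with
    | zero => exact (Fin.elim0 (e q0))
    | succ q => exact ⟨q, rfl⟩
  exact ⟨q, e.trans (Equiv.swap (e q0) 0), by simp⟩

omit [DecidableEq K] in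
theorem exists_equiv_two [Finite K] (k0 k1 : K) (h : k0 ≠ k1) :
    ∃ (k : ℕ) (e : K ≃ Fin (k + 2)), e k0 = 0 ∧ e k1 = 1 := by
  obtain ⟨n, e, h0⟩ := exists_equiv_one k0
  obtain ⟨k, rfl⟩ : ∃ k, n = k + 1 := by
    cases n with
    | zero =>
      exact absurd (e.injective (Subsingleton.elim (α := Fin 1) (e k0) (e k1))) h
    | succ k => exact ⟨k, rfl⟩
  refine ⟨k, e.trans (Equiv.swap (e k1) 1), ?_, by simp⟩
  rw [Equiv.trans_apply, h0]
  refine Equiv.swap_apply_of_ne_of_ne ?_ ?_
  · rw [← h0]
    exact fun h' => h (e.injective h')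
  · exact fun h' => absurd h' (by simp)

/-- **Conversion.** -/
theorem toMachine [Finite K] [Finite Q] (code : Q → GI K Q) (k0 k1 : K) (hk : k0 ≠ k1) (q0 : Q) :
    ∃ M : Machine, ∀ (O : Oracle) (x w : List Bool) (b : Bool) (n : ℕ),
      Halts O code (q0, ini k0 k1 x w) b n → HaltsM O M x w b n := by
  obtain ⟨k, eK, h0, h1⟩ := exists_equiv_two k0 k1 hk
  obtain ⟨q, eQ, hq⟩ := exists_equiv_one q0
  refine ⟨conv eK eQ code, fun O x w b n => ?_⟩
  rintro ⟨t, ht, h⟩
  refine ⟨t, ht, ?_⟩
  have h3 : ∀ i : Fin (k + 2), (if i = 0 then x else if i = 1 then w else []) =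
      ini k0 k1 x w (eK.symm i) := by
    intro i
    unfold ini
    have e0 : eK.symm i = k0 ↔ i = 0 := by
      rw [← h0, Equiv.symm_apply_eq]
    have e1 : eK.symm i = k1 ↔ i = 1 := by
      rw [← h1, Equiv.symm_apply_eq]
    by_cases hi : i = 0
    · rw [if_pos hi, if_pos (e0.2 hi)]
    · rw [if_neg hi, if_neg (fun h => hi (e0.1 h))]
      by_cases hi' : i = 1
      · rw [if_pos hi', if_pos (e1.2 hi')]
      · rw [if_neg hi', if_neg (fun h => hi' (e1.1 h))]
  have h2 : start (conv eK eQ code) x w = tr eK eQ code (q0, ini k0 k1 x w) :=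
    (congrArg (fun S => Cfg.mk (M := conv eK eQ code) (0 : Fin (q + 1)) S) (funext h3)).trans
      (congrArg (fun s : Fin (q + 1) => Cfg.mk (M := conv eK eQ code) s
        (fun i => ini k0 k1 x w (eK.symm i))) hq.symm)
  rw [h2, iter_conv]
  refine (code_conv eK eQ code _).trans ?_
  rw [h]
  rfl

end ESY.Btw
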