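import Pool.Agent.Lib.MP_80aaf5_lc.Btw.Clock

/-!
# A machine in place of the oracle
-/

set_option autoImplicit false

namespace ESY.Btw

open ESY ESY.Few

/-! ### stacks -/

section conf

variable {α β Q : Type} [DecidableEq α] [DecidableEq β]

/-- configurations with the stacks of two machines and one more stack -/
def cs (q : Q) (S : α → List Bool) (R : β → List Bool) (z : List Bool) :
    Q × (α ⊕ (β ⊕ Unit) → List Bool) := (q, Sum.elim S (Sum.elim R fun _ => z))

theorem tu (S : α → List Bool) (R : β → List Bool) (z e : List Bool) :
    Function.update (Sum.elim S (Sum.elim R fun _ => z) : α ⊕ (β ⊕ Unit) → List Bool)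
      (.inr (.inr ())) e = Sum.elim S (Sum.elim R fun _ => e) := by
  rw [Sum.update_elim_inr, Sum.update_elim_inr]
  rfl

theorem tr' (S : α → List Bool) (R : β → List Bool) (z e : List Bool) (j : β) :
    Function.update (Sum.elim S (Sum.elim R fun _ => z) : α ⊕ (β ⊕ Unit) → List Bool)
      (.inr (.inl j)) e = Sum.elim S (Sum.elim (Function.update R j e) fun _ => z) := by
  rw [Sum.update_elim_inr, Sum.update_elim_inl]

variable {O : Oracle} {code : Q → GI (α ⊕ (β ⊕ Unit)) Q} {q n e : Q} {f : Bool → Q} {b : Bool}
  (S : α → List Bool) (R : β → List Bool) (z : List Bool)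

theorem pT (h : code q = .push (.inr (.inr ())) b n) :
    Run O code 1 (cs q S R z) (cs n S R (b :: z)) := by
  have h1 := g_push (O := O) (S := Sum.elim S (Sum.elim R fun _ => z)) h
  rw [tu] at h1
  exact h1
theorem oT (h : code q = .pop (.inr (.inr ())) e (f false) (f true)) :
    Run O code 1 (cs q S R (b :: z)) (cs (f b) S R z) := by
  have h1 := g_pop (O := O) (S := Sum.elim S (Sum.elim R fun _ => b :: z)) (s := z) (b := b) h rfl
  rw [tu] at h1
  exact h1
theorem eT {z' o' : Q} (h : code q = .pop (.inr (.inr ())) e z' o') :
    Run O code 1 (cs q S R []) (cs e S R []) := g_empty h rfl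

variable {i : α} {j : β}

theorem pL (h : code q = .push (.inl i) b n) :
    Run O code 1 (cs q S R z) (cs n (Function.update S i (b :: S i)) R z) := by
  have h1 := g_push (O := O) (S := Sum.elim S (Sum.elim R fun _ => z)) h
  rw [Sum.update_elim_inl] at h1
  exact h1
theorem oL {s : List Bool} (h : code q = .pop (.inl i) e (f false) (f true)) (hs : S i = b :: s) :
    Run O code 1 (cs q S R z) (cs (f b) (Function.update S i s) R z) := by
  have h1 := g_pop (O := O) (S := Sum.elim S (Sum.elim R fun _ => z)) (s := s) (b := b) h hs
  rw [Sum.update_elim_inl] at h1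
  exact h1
theorem eL {z' o' : Q} (h : code q = .pop (.inl i) e z' o') (hs : S i = []) :
    Run O code 1 (cs q S R z) (cs e S R z) := g_empty h hs

theorem pR (h : code q = .push (.inr (.inl j)) b n) :
    Run O code 1 (cs q S R z) (cs n S (Function.update R j (b :: R j)) z) := by
  have h1 := g_push (O := O) (S := Sum.elim S (Sum.elim R fun _ => z)) h
  rw [tr'] at h1
  exact h1
theorem oR {s : List Bool} (h : code q = .pop (.inr (.inl j)) e (f false) (f true))
    (hs : R j = b :: s) :
    Run O code 1 (cs q S R z) (cs (f b) S (Function.update R j s) z) := by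
  have h1 := g_pop (O := O) (S := Sum.elim S (Sum.elim R fun _ => z)) (s := s) (b := b) h hs
  rw [tr'] at h1
  exact h1
theorem eR {z' o' : Q} (h : code q = .pop (.inr (.inl j)) e z' o') (hs : R j = []) :
    Run O code 1 (cs q S R z) (cs e S R z) := g_empty h hs
theorem qR {y : Q} (h : code q = .query (.inr (.inl j)) n y) :
    Run O code 1 (cs q S R z) (cs (if O (R j) = true then y else n) S R z) := g_query h

end conf

/-! ### the states and the code -/

/-- the states -/
inductive Sb (q r m : ℕ) : Type
  | run (s : Fin (q + 1))
  | c1 (s : Fin (q + 1)) (b : Bool) | c2 (s : Fin (q + 1))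
  | c3 (s : Fin (q + 1)) (b : Bool) | c4 (s : Fin (q + 1)) (b : Bool)
  | sub (s : Fin (q + 1)) (p : Fin (r + 1))
  | clr (s : Fin (q + 1)) (b : Bool) (j : Fin (m + 2))

instance (q r m : ℕ) : Finite (Sb q r m) := by
  have f : Function.Surjective (fun t : Fin (q + 1) × ((Fin 5 × Bool) ⊕ (Fin (r + 1) ⊕
      (Bool × Fin (m + 2)))) => (match t with
    | (s, .inl (j, b)) => (![Sb.run s, .c1 s b, .c2 s, .c3 s b, .c4 s b] : Fin 5 → Sb q r m) j
    | (s, .inr (.inl p)) => Sb.sub s p
    | (s, .inr (.inr (b, j))) => Sb.clr s b j)) := by
    intro t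
    cases t with
    | run s => exact ⟨(s, .inl (0, true)), rfl⟩
    | c1 s b => exact ⟨(s, .inl (1, b)), rfl⟩
    | c2 s => exact ⟨(s, .inl (2, true)), rfl⟩
    | c3 s b => exact ⟨(s, .inl (3, b)), rfl⟩
    | c4 s b => exact ⟨(s, .inl (4, b)), rfl⟩
    | sub s p => exact ⟨(s, .inr (.inl p)), rfl⟩
    | clr s b j => exact ⟨(s, .inr (.inr (b, j))), rfl⟩
  exact Finite.of_surjective _ f

/-- the state of `M` after the answer `b` in the state `s` -/
def after (M : Machine) (s : Fin (M.q + 1)) (b : Bool) : Fin (M.q + 1) :=
  match M.code s with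
  | .query _ n y => if b = true then y else n
  | _ => s

/-- clear the stacks from `j` on -/
def nxc (M N : Machine) (s : Fin (M.q + 1)) (b : Bool) (j : ℕ) : Sb M.q N.q N.k :=
  if h : j < N.k + 2 then .clr s b ⟨j, h⟩ else .run (after M s b)

/-- `M` with calls of `N` in place of the questions -/
def scode (M N : Machine) :
    Sb M.q N.q N.k → GI (Fin (M.k + 2) ⊕ (Fin (N.k + 2) ⊕ Unit)) (Sb M.q N.q N.k)
  | .run s => match M.code s with
    | .push i b n => .push (.inl i) b (.run n)
    | .pop i e z o => .pop (.inl i) (.run e) (.run z) (.run o)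
    | .query i _ _ => .pop (.inl i) (.c2 s) (.c1 s false) (.c1 s true)
    | .halt b => .halt b
  | .c1 s b => .push (.inr (.inr ())) b (.run s)
  | .c2 s => .pop (.inr (.inr ())) (.sub s 0) (.c3 s false) (.c3 s true)
  | .c3 s b => match M.code s with
    | .query i _ _ => .push (.inl i) b (.c4 s b)
    | _ => .halt false
  | .c4 s b => .push (.inr (.inl 0)) b (.c2 s)
  | .sub s p => match N.code p with
    | .push i b n => .push (.inr (.inl i)) b (.sub s n)
    | .pop i e z o => .pop (.inr (.inl i)) (.sub s e) (.sub s z) (.sub s o)
    | .query i n y => .query (.inr (.inl i)) (.sub s n) (.sub s y)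
    | .halt b => .pop (.inr (.inr ())) (nxc M N s b 0) (nxc M N s b 0) (nxc M N s b 0)
  | .clr s b j => .pop (.inr (.inl j)) (nxc M N s b (j.val + 1)) (.clr s b j) (.clr s b j)

variable {M N : Machine} {D : Oracle}

/-! ### copy the question -/

theorem copy1 {s : Fin (M.q + 1)} {i : Fin (M.k + 2)} {n y : Fin (M.q + 1)}
    (hs : M.code s = .query i n y) (S : Fin (M.k + 2) → List Bool)
    (R : Fin (N.k + 2) → List Bool) : ∀ (x z : List Bool),
    Run D (scode M N) (2 * x.length + 1) (cs (.run s) (Function.update S i x) R z)
      (cs (.c2 s) (Function.update S i []) R (x.reverse ++ z))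
  | [], z => by
    have h0 : scode M N (.run s) = .pop (.inl i) (.c2 s) (.c1 s false) (.c1 s true) := by
      unfold scode
      simp only [hs]
    exact eL _ _ _ h0 (Function.update_self ..)
  | b :: x, z => by
    have h0 : scode M N (.run s) = .pop (.inl i) (.c2 s) (.c1 s false) (.c1 s true) := by
      unfold scode
      simp only [hs]
    have h1 : Run D (scode M N) 1 (cs (.run s) (Function.update S i (b :: x)) R z)
        (cs (.c1 s b) (Function.update S i x) R z) := by
      have h := oL (O := D) (code := scode M N) (f := Sb.c1 s) (Function.update S i (b :: x)) R z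
        h0 (Function.update_self ..)
      rwa [Function.update_idem] at h
    have h2 : Run D (scode M N) 1 (cs (.c1 s b) (Function.update S i x) R z)
        (cs (.run s) (Function.update S i x) R (b :: z)) := pT _ _ _ rfl
    have h3 := (h1.trans h2).trans (copy1 hs S R x (b :: z))
    rw [show x.reverse ++ b :: z = (b :: x).reverse ++ z by simp] at h3
    exact h3.mono (by rw [List.length_cons]; omega)

theorem copy2 {s : Fin (M.q + 1)} {i : Fin (M.k + 2)} {n y : Fin (M.q + 1)}
    (hs : M.code s = .query i n y) (S : Fin (M.k + 2) → List Bool)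
    (R : Fin (N.k + 2) → List Bool) : ∀ (z x r : List Bool),
    Run D (scode M N) (3 * z.length + 1)
      (cs (.c2 s) (Function.update S i x) (Function.update R 0 r) z)
      (cs (.sub s 0) (Function.update S i (z.reverse ++ x))
        (Function.update R 0 (z.reverse ++ r)) [])
  | [], x, r => eT _ _ rfl
  | b :: z, x, r => by
    have h1 : Run D (scode M N) 1
        (cs (.c2 s) (Function.update S i x) (Function.update R 0 r) (b :: z))
        (cs (.c3 s b) (Function.update S i x) (Function.update R 0 r) z) :=
      oT (f := Sb.c3 s) _ _ _ rfl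
    have h0 : scode M N (.c3 s b) = .push (.inl i) b (.c4 s b) := by
      unfold scode
      simp only [hs]
    have h2 : Run D (scode M N) 1
        (cs (.c3 s b) (Function.update S i x) (Function.update R 0 r) z)
        (cs (.c4 s b) (Function.update S i (b :: x)) (Function.update R 0 r) z) := by
      have h := pL (O := D) (Function.update S i x) (Function.update R 0 r) z h0
      rwa [Function.update_idem, Function.update_self] at h
    have h3 : Run D (scode M N) 1
        (cs (.c4 s b) (Function.update S i (b :: x)) (Function.update R 0 r) z)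
        (cs (.c2 s) (Function.update S i (b :: x)) (Function.update R 0 (b :: r)) z) := by
      have h := pR (O := D) (code := scode M N) (q := .c4 s b) (Function.update S i (b :: x))
        (Function.update R 0 r) z rfl
      rwa [Function.update_idem, Function.update_self] at h
    have h4 := (h1.trans (h2.trans h3)).trans (copy2 hs S R z (b :: x) (b :: r))
    rw [show z.reverse ++ b :: x = (b :: z).reverse ++ x by simp,
      show z.reverse ++ b :: r = (b :: z).reverse ++ r by simp] at h4
    exact h4.mono (by rw [List.length_cons]; omega)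

/-! ### the called machine -/

theorem call (s : Fin (M.q + 1)) (S : Fin (M.k + 2) → List Bool) (b : Bool) : ∀ (t : ℕ)
    (C : Cfg N) (m : ℕ), (∀ j, (C.stack j).length ≤ m) →
    N.code ((step D N)^[t] C).state = .halt b →
    ∃ C' : Cfg N, N.code C'.state = .halt b ∧ (∀ j, (C'.stack j).length ≤ m + t) ∧
      Run D (scode M N) t (cs (.sub s C.state) S C.stack []) (cs (.sub s C'.state) S C'.stack [])
  | 0, C, m, hm, h => ⟨C, h, hm, Run.refl _ _ _⟩
  | t + 1, C, m, hm, h => by
    rw [Function.iterate_succ_apply] at h
    have key : ∀ C₁ : Cfg N, C₁ = step D N C →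
        Run D (scode M N) 1 (cs (.sub s C.state) S C.stack []) (cs (.sub s C₁.state) S C₁.stack []) →
        ∃ C' : Cfg N, N.code C'.state = .halt b ∧ (∀ j, (C'.stack j).length ≤ m + (t + 1)) ∧
          Run D (scode M N) (t + 1) (cs (.sub s C.state) S C.stack [])
            (cs (.sub s C'.state) S C'.stack []) := by
      rintro C₁ rfl h1
      obtain ⟨C', e1, e2, e3⟩ := call s S b t (step D N C) (m + 1) (step_len D N C m hm) h
      exact ⟨C', e1, fun j => by have := e2 j; omega, (h1.trans e3).mono (by omega)⟩
    cases hc : N.code C.state with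
    | halt b' =>
      rw [step_fix hc, iter_fix hc, hc] at h
      exact ⟨C, hc.trans h, fun j => by have := hm j; omega, (Run.refl _ _ _).mono (by omega)⟩
    | push i b' n =>
      have h0 : scode M N (.sub s C.state) = .push (.inr (.inl i)) b' (.sub s n) := by
        unfold scode
        simp only [hc]
      exact key _ (m_push hc).symm (pR _ _ _ h0)
    | pop i e z o =>
      have h0 : scode M N (.sub s C.state) = .pop (.inr (.inl i)) (.sub s e) (.sub s z)
          (.sub s o) := by
        unfold scode
        simp only [hc]
      rcases hS : C.stack i with _ | ⟨_ | _, r⟩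
      · exact key _ (m_empty hc hS).symm (eR _ _ _ h0 hS)
      · exact key _ (m_false hc hS).symm (oR (f := fun β => if β = true then Sb.sub s o else
          Sb.sub s z) _ _ _ h0 hS)
      · exact key _ (m_true hc hS).symm (oR (f := fun β => if β = true then Sb.sub s o else
          Sb.sub s z) _ _ _ h0 hS)
    | query i n y =>
      have h0 : scode M N (.sub s C.state) = .query (.inr (.inl i)) (.sub s n) (.sub s y) := by
        unfold scode
        simp only [hc]
      have h1 := qR (O := D) S C.stack [] h0
      refine key _ (m_query hc).symm ?_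
      simp only
      by_cases hO : D (C.stack i) = true
      · rw [if_pos hO] at h1 ⊢
        exact h1
      · rw [if_neg hO] at h1 ⊢
        exact h1

/-! ### clear the stacks -/

theorem clear1 (s : Fin (M.q + 1)) (b : Bool) (j : Fin (N.k + 2))
    (S : Fin (M.k + 2) → List Bool) (R : Fin (N.k + 2) → List Bool) : ∀ r : List Bool,
    Run D (scode M N) (r.length + 1) (cs (.clr s b j) S (Function.update R j r) [])
      (cs (nxc M N s b (j.val + 1)) S (Function.update R j []) [])
  | [] => eR _ _ _ rfl (Function.update_self ..)
  | β :: r => by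
    have h1 : Run D (scode M N) 1 (cs (.clr s b j) S (Function.update R j (β :: r)) [])
        (cs (.clr s b j) S (Function.update R j r) []) := by
      have h := oR (O := D) (code := scode M N) (q := .clr s b j) (f := fun _ => Sb.clr s b j) S
        (Function.update R j (β :: r)) [] rfl (Function.update_self ..)
      rwa [Function.update_idem] at h
    exact (h1.trans (clear1 s b j S R r)).mono (by rw [List.length_cons]; omega)

theorem clear (s : Fin (M.q + 1)) (b : Bool) (S : Fin (M.k + 2) → List Bool) (m : ℕ) :
    ∀ (d j : ℕ) (R : Fin (N.k + 2) → List Bool), j + d = N.k + 2 →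
    (∀ i, (R i).length ≤ m) → (∀ i : Fin (N.k + 2), i.val < j → R i = []) →
    Run D (scode M N) (d * (m + 1)) (cs (nxc M N s b j) S R [])
      (cs (.run (after M s b)) S (fun _ => []) [])
  | 0, j, R, hj, hm, h0 => by
    have e1 : nxc M N s b j = .run (after M s b) := by
      unfold nxc
      rw [dif_neg (by omega)]
    have e2 : R = fun _ => [] := funext fun i => h0 i (by omega)
    rw [e1, e2]
    exact (Run.refl _ _ _).mono (Nat.zero_le _)
  | d + 1, j, R, hj, hm, h0 => by
    have hj' : j < N.k + 2 := by omega
    have e1 : nxc M N s b j = .clr s b ⟨j, hj'⟩ := by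
      unfold nxc
      rw [dif_pos hj']
    have h1 := clear1 (D := D) s b ⟨j, hj'⟩ S R (R ⟨j, hj'⟩)
    rw [Function.update_eq_self] at h1
    have h2 := clear s b S m d (j + 1) (Function.update R ⟨j, hj'⟩ []) (by omega) (fun i => by
      by_cases hi : i = ⟨j, hj'⟩
      · subst hi
        rw [Function.update_self]
        exact Nat.zero_le _
      · rw [Function.update_of_ne hi]
        exact hm i) (fun i hi => by
      by_cases hi' : i = ⟨j, hj'⟩
      · subst hi'
        rw [Function.update_self]
      · rw [Function.update_of_ne hi']
        refine h0 i ?_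
        have : i.val ≠ j := fun h => hi' (Fin.ext h)
        omega)
    rw [e1]
    refine (h1.trans h2).mono ?_
    have h3 := hm ⟨j, hj'⟩
    have h4 := Nat.succ_mul d (m + 1)
    rw [Nat.succ_eq_add_one] at h4
    omega

/-! ### one step of `M` -/

/-- the cost of one step -/
def cost (N : Machine) (d L : ℕ) : ℕ := (N.k + 8) * (L + poly d L + 1)

theorem one_le_cost (N : Machine) (d L : ℕ) : 1 ≤ cost N d L :=
  Nat.mul_pos (by omega) (by omega)

theorem poly_mono' {c n m : ℕ} (h : n ≤ m) : poly c n ≤ poly c m := by
  unfold poly
  have := Nat.pow_le_pow_left h c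
  omega

theorem one_step {C : Oracle} {d : ℕ} (hN : ∀ s : List Bool, HaltsM D N s [] (C s)
    (poly d s.length)) (c : Cfg M) (L : ℕ) (hL : ∀ i, (c.stack i).length ≤ L) :
    Run D (scode M N) (cost N d L) (cs (.run c.state) c.stack (fun _ => []) [])
      (cs (.run (step C M c).state) (step C M c).stack (fun _ => []) []) := by
  have h1 := one_le_cost N d L
  cases hc : M.code c.state with
  | halt b =>
    rw [step_fix hc]
    exact (Run.refl _ _ _).mono (Nat.zero_le _)
  | push i b n =>
    have h0 : scode M N (.run c.state) = .push (.inl i) b (.run n) := by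
      unfold scode
      simp only [hc]
    rw [m_push hc]
    exact (pL _ _ _ h0).mono h1
  | pop i e z o =>
    have h0 : scode M N (.run c.state) = .pop (.inl i) (.run e) (.run z) (.run o) := by
      unfold scode
      simp only [hc]
    rcases hS : c.stack i with _ | ⟨_ | _, r⟩
    · rw [m_empty hc hS]
      exact (eL _ _ _ h0 hS).mono h1
    · rw [m_false hc hS]
      exact (oL (f := fun β => if β = true then Sb.run o else Sb.run z) _ _ _ h0 hS).mono h1
    · rw [m_true hc hS]
      exact (oL (f := fun β => if β = true then Sb.run o else Sb.run z) _ _ _ h0 hS).mono h1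
  | query i n y =>
    set x := c.stack i with hx
    have e0 : Function.update c.stack i x = c.stack := Function.update_eq_self ..
    have s1 := copy1 (N := N) (D := D) hc c.stack (fun _ => []) x []
    have s2 := copy2 (N := N) (D := D) hc c.stack (fun _ => []) x.reverse [] []
    have e1 : Function.update (fun _ : Fin (N.k + 2) => ([] : List Bool)) 0 [] =
        fun _ => [] := Function.update_eq_self ..
    rw [List.append_nil] at s1
    rw [List.reverse_reverse, List.append_nil, e1] at s2
    rw [e0] at s1 s2
    obtain ⟨t, ht, hh⟩ := hN x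
    have e2 : (start N x []).stack = Function.update (fun _ => []) 0 x := by
      unfold start
      funext j
      simp only
      by_cases hj : j = 0
      · subst hj
        rw [if_pos rfl, Function.update_self]
      · rw [if_neg hj, Function.update_of_ne hj]
        split_ifs <;> rfl
    obtain ⟨C', f1, f2, f3⟩ := call (M := M) (D := D) c.state c.stack (C x) t (start N x [])
      x.length (start_len N x [] x.length le_rfl (Nat.zero_le _)) hh
    rw [e2] at f3
    have g0 : scode M N (.sub c.state C'.state) = .pop (.inr (.inr ()))
        (nxc M N c.state (C x) 0) (nxc M N c.state (C x) 0) (nxc M N c.state (C x) 0) := by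
      unfold scode
      simp only [f1]
    have s4 := eT (O := D) c.stack C'.stack g0
    have s5 := clear (D := D) (M := M) c.state (C x) c.stack (x.length + t) (N.k + 2) 0 C'.stack
      (by omega) f2 (fun i hi => absurd hi (Nat.not_lt_zero _))
    have e3 : step C M c = ⟨after M c.state (C x), c.stack⟩ := by
      rw [m_query hc]
      unfold after
      rw [hc]
    rw [e3]
    have s6 := s1.trans (s2.trans (f3.trans (s4.trans s5)))
    refine s6.mono ?_
    have hxL : x.length ≤ L := hL i
    have hP : t ≤ poly d L := ht.trans (poly_mono' hxL)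
    have h2 : (N.k + 2) * (x.length + t + 1) ≤ (N.k + 2) * (L + poly d L + 1) :=
      Nat.mul_le_mul_left _ (by omega)
    have h3 : cost N d L = (N.k + 2) * (L + poly d L + 1) + 6 * (L + poly d L + 1) := by
      unfold cost
      ring
    rw [h3, List.length_reverse]
    omega

/-- **Substitution.** -/
theorem subst (M N : Machine) : ∃ M' : Machine, ∀ (C D : Oracle) (d : ℕ),
    (∀ s : List Bool, HaltsM D N s [] (C s) (poly d s.length)) →
    ∀ (x w : List Bool) (b : Bool) (t : ℕ), HaltsM C M x w b t →
      HaltsM D M' x w b (t * cost N d (max x.length w.length + t)) := by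
  obtain ⟨M', hM'⟩ := toMachine (scode M N) (.inl 0) (.inl 1)
    (fun h => absurd (Sum.inl.inj h) (by simp)) (.run 0)
  refine ⟨M', fun C D d hN x w b T h => hM' D x w b _ ?_⟩
  have e : ((.run 0, ini (.inl 0) (.inl 1) x w) : Sb M.q N.q N.k ×
      (Fin (M.k + 2) ⊕ (Fin (N.k + 2) ⊕ Unit) → List Bool)) =
      cs (.run 0) (start M x w).stack (fun _ => []) [] := by
    unfold cs
    congr 1
    funext j
    rcases j with j | j | j
    · unfold ini start
      simp only [Sum.elim_inl, Sum.inl.injEq]
    · unfold ini
      rw [if_neg (by simp), if_neg (by simp)]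
      rfl
    · unfold ini
      rw [if_neg (by simp), if_neg (by simp)]
      rfl
  rw [e]
  have key : ∀ (t : ℕ) (c : Cfg M) (m : ℕ), (∀ i, (c.stack i).length ≤ m) →
      Run D (scode M N) (t * cost N d (m + t)) (cs (.run c.state) c.stack (fun _ => []) [])
        (cs (.run ((step C M)^[t] c).state) ((step C M)^[t] c).stack (fun _ => []) []) := by
    intro t
    induction t with
    | zero =>
      intro c m _
      exact (Run.refl _ _ _).mono (Nat.zero_le _)
    | succ t ih =>
      intro c m hm
      rw [Function.iterate_succ_apply]
      have h1 := one_step (M := M) hN c (m + (t + 1)) (fun i => (hm i).trans (by omega))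
      have h2 := ih (step C M c) (m + 1) (step_len C M c m hm)
      rw [show m + 1 + t = m + (t + 1) by ring] at h2
      refine (h1.trans h2).mono ?_
      have h4 := Nat.succ_mul t (cost N d (m + (t + 1)))
      rw [Nat.succ_eq_add_one] at h4
      omega
  obtain ⟨t, ht, hh⟩ := h
  have h1 := key t (start M x w) (max x.length w.length)
    (start_len M x w _ (le_max_left _ _) (le_max_right _ _))
  have h2 : scode M N (.run ((step C M)^[t] (start M x w)).state) = .halt b := by
    unfold scode
    simp only [hh]
  refine (h1.halts (Halts.now h2)).mono ?_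
  rw [Nat.add_zero]
  refine Nat.mul_le_mul ht ?_
  unfold cost
  have h3 : poly d (max x.length w.length + t) ≤ poly d (max x.length w.length + T) :=
    poly_mono' (by omega)
  exact Nat.mul_le_mul_left _ (by omega)

end ESY.Btw
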